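import Pool.Agent.Zk84.M3.Stm

set_option autoImplicit false

namespace Pool.Agent.Zk84.M3

open Complex Set

/-- the rotations of the first coordinate by multiples of `2 π k` -/
theorem rot_mem {k : ℝ} {K : Set (ℂ × ℂ)} (h : Inv k K) (n : ℤ) {x : ℂ × ℂ} (hx : x ∈ K) :
    (Complex.exp (((2 * Real.pi * k * n : ℝ) : ℂ) * I) * x.1, x.2) ∈ K := by
  have h1 := h (2 * Real.pi * n) x hx
  have e1 : (k : ℂ) * (((2 * Real.pi * n : ℝ)) : ℂ) * I =
      (((2 * Real.pi * k * n : ℝ)) : ℂ) * I := by push_cast; ring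
  have e2 : Complex.exp ((((2 * Real.pi * n : ℝ)) : ℂ) * I) = 1 := by
    have := Complex.exp_int_mul_two_pi_mul_I n
    rw [← this]
    congr 1
    push_cast
    ring
  rw [e1, e2, one_mul] at h1
  exact h1

/-- the rotation by an angle `θ` which is `2 π k n` modulo `2 π` -/
theorem rot_mem' {k : ℝ} {K : Set (ℂ × ℂ)} (h : Inv k K) {θ : ℝ} (n m : ℤ)
    (hθ : θ = 2 * Real.pi * k * n + 2 * Real.pi * m) {x : ℂ × ℂ} (hx : x ∈ K) :
    (Complex.exp ((θ : ℂ) * I) * x.1, x.2) ∈ K := by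
  have h1 := rot_mem h n hx
  have e : Complex.exp ((θ : ℂ) * I) = Complex.exp (((2 * Real.pi * k * n : ℝ) : ℂ) * I) := by
    have e1 : (θ : ℂ) * I = ((2 * Real.pi * k * n : ℝ) : ℂ) * I + m * (2 * Real.pi * I) := by
      rw [hθ]; push_cast; ring
    rw [e1, Complex.exp_add, Complex.exp_int_mul_two_pi_mul_I, mul_one]
  rw [e]; exact h1

theorem expI (φ : ℝ) : Complex.exp ((φ : ℂ) * I) = ⟨Real.cos φ, Real.sin φ⟩ := by
  rw [Complex.exp_mul_I]
  apply Complex.ext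
  · simp [Complex.cos_ofReal_re, Complex.sin_ofReal_im]
  · simp [Complex.cos_ofReal_im, Complex.sin_ofReal_re]

/-- the cone of `1 - e^{iθ}` and `1 - e^{-iθ}` -/
theorem cone {θ p q : ℝ} (h0 : 0 < θ) (h1 : θ < Real.pi) (hp : 0 ≤ p)
    (hq : |q| * (1 - Real.cos θ) ≤ p * Real.sin θ) :
    ∃ b1 b2 : ℝ, 0 ≤ b1 ∧ 0 ≤ b2 ∧ (⟨p, q⟩ : ℂ) =
      b1 * (1 - Complex.exp ((θ : ℂ) * I)) + b2 * (1 - Complex.exp (((-θ : ℝ) : ℂ) * I)) := by
  have hs : 0 < Real.sin θ := Real.sin_pos_of_pos_of_lt_pi h0 h1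
  have hc : 0 < 1 - Real.cos θ := by
    have : Real.cos θ < 1 := by
      have := Real.cos_lt_cos_of_nonneg_of_le_pi le_rfl h1.le h0
      rwa [Real.cos_zero] at this
    linarith
  set c := 1 - Real.cos θ with hcd
  set s := Real.sin θ with hsd
  have habs := abs_le.1 (show |q| ≤ p * s / c by rw [le_div_iff₀ hc]; exact hq)
  refine ⟨(p / c - q / s) / 2, (p / c + q / s) / 2, ?_, ?_, ?_⟩
  · have : q / s ≤ p / c := by
      rw [div_le_div_iff₀ hs hc]
      have := habs.2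
      rw [le_div_iff₀ hc] at this
      linarith
    linarith
  · have : -(q / s) ≤ p / c := by
      rw [← neg_div, div_le_div_iff₀ hs hc]
      have := habs.1
      have h3 : -q ≤ p * s / c := by linarith
      rw [le_div_iff₀ hc] at h3
      linarith
    linarith
  · have e1 := expI θ
    have e2 := expI (-θ)
    rw [Real.cos_neg, Real.sin_neg] at e2
    rw [e1, e2]
    apply Complex.ext
    · simp only [Complex.add_re, Complex.mul_re, Complex.ofReal_re, Complex.ofReal_im,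
        Complex.sub_re, Complex.one_re, Complex.sub_im, Complex.one_im]
      have : p = p / c * c := (div_mul_cancel₀ _ hc.ne').symm
      rw [← hcd]
      field_simp
      ring
    · simp only [Complex.add_im, Complex.mul_im, Complex.ofReal_re, Complex.ofReal_im,
        Complex.sub_re, Complex.one_re, Complex.sub_im, Complex.one_im]
      rw [← hsd]
      field_simp
      ring

/-- `|q| (1 - cos θ) ≤ p sin θ` -/
theorem tan_half {θ p q T : ℝ} (h0 : 0 < θ) (h1 : θ < Real.pi) (hT : 0 ≤ T)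
    (hcos : 1 - Real.cos θ ≤ T * Real.sin θ) (hp : 0 ≤ p) (hq : T * |q| ≤ p) :
    |q| * (1 - Real.cos θ) ≤ p * Real.sin θ := by
  have hs : 0 ≤ Real.sin θ := (Real.sin_pos_of_pos_of_lt_pi h0 h1).le
  calc |q| * (1 - Real.cos θ) ≤ |q| * (T * Real.sin θ) :=
        mul_le_mul_of_nonneg_left hcos (abs_nonneg q)
    _ = (T * |q|) * Real.sin θ := by ring
    _ ≤ p * Real.sin θ := mul_le_mul_of_nonneg_right hq hs

/-- `1 - cos θ = tan (θ / 2) sin θ` -/
theorem one_sub_cos {θ τ : ℝ} (h0 : 0 < θ) (h1 : θ ≤ 2 * τ) (hτ : 2 * τ < Real.pi) :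
    1 - Real.cos θ ≤ Real.tan τ * Real.sin θ := by
  have hh : Real.tan (θ / 2) ≤ Real.tan τ := by
    rcases (show θ / 2 ≤ τ by linarith).eq_or_lt with h | h
    · rw [h]
    · exact (Real.tan_lt_tan_of_lt_of_lt_pi_div_two (by linarith) (by linarith) h).le
  have hs : 0 < Real.sin θ := Real.sin_pos_of_pos_of_lt_pi h0 (by linarith)
  have hc2 : Real.cos (θ / 2) ≠ 0 :=
    (Real.cos_pos_of_mem_Ioo ⟨by linarith, by linarith⟩).ne'
  have e : 1 - Real.cos θ = Real.tan (θ / 2) * Real.sin θ := by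
    have e1 : Real.cos θ = 2 * Real.cos (θ / 2) ^ 2 - 1 := by
      rw [← Real.cos_two_mul]; congr 1; ring
    have e2 : Real.sin θ = 2 * Real.sin (θ / 2) * Real.cos (θ / 2) := by
      rw [← Real.sin_two_mul]; congr 1; ring
    have e3 := Real.sin_sq_add_cos_sq (θ / 2)
    rw [e1, e2, Real.tan_eq_sin_div_cos]
    field_simp
    nlinarith
  rw [e]
  exact mul_le_mul_of_nonneg_right hh hs.le

theorem tan_pi_div_three : Real.tan (Real.pi / 3) = √3 := by
  rw [Real.tan_eq_sin_div_cos, Real.sin_pi_div_three, Real.cos_pi_div_three]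
  ring

theorem of_angle {k : ℝ} {K : Set (ℂ × ℂ)} (h : Inv k K) {θ : ℝ} (n m : ℤ)
    (hθ : θ = 2 * Real.pi * k * n + 2 * Real.pi * m) (h0 : θ ≠ 0) {p q τ : ℝ}
    (h1 : |θ| ≤ 2 * τ) (hτ : 2 * τ < Real.pi) (hp : 0 ≤ p) (hq : Real.tan τ * |q| ≤ p) :
    ∃ (e1 e2 : ℂ) (b1 b2 : ℝ), 0 ≤ b1 ∧ 0 ≤ b2 ∧ (∀ x ∈ K, (e1 * x.1, x.2) ∈ K) ∧
      (∀ x ∈ K, (e2 * x.1, x.2) ∈ K) ∧ (⟨p, q⟩ : ℂ) = b1 * (1 - e1) + b2 * (1 - e2) := by
  have habs : 0 < |θ| := abs_pos.2 h0
  have hτ0 : 0 ≤ Real.tan τ := Real.tan_nonneg_of_nonneg_of_le_pi_div_two (by linarith) (by linarith)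
  obtain ⟨b1, b2, hb1, hb2, hb⟩ := cone habs (lt_of_le_of_lt h1 hτ) hp
    (tan_half habs (lt_of_le_of_lt h1 hτ) hτ0 (one_sub_cos habs h1 hτ) hp hq)
  have hpos : ∀ x ∈ K, (Complex.exp ((θ : ℂ) * I) * x.1, x.2) ∈ K := fun x hx =>
    rot_mem' h n m hθ hx
  have hneg : ∀ x ∈ K, (Complex.exp (((-θ : ℝ) : ℂ) * I) * x.1, x.2) ∈ K := fun x hx =>
    rot_mem' h (-n) (-m) (by rw [hθ]; push_cast; ring) hx
  rcases abs_choice θ with ha | ha
  · rw [ha] at hb
    exact ⟨_, _, b1, b2, hb1, hb2, hpos, hneg, hb⟩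
  · rw [ha] at hb
    rw [neg_neg] at hb
    exact ⟨_, _, b1, b2, hb1, hb2, hneg, hpos, hb⟩

theorem w3 : W3 := by
  intro k hk0 hk1 hk2 K hB p q hp hq
  have hπ := Real.pi_pos
  have hsq3 : ∀ {p q : ℝ}, 0 ≤ p → 3 * q ^ 2 ≤ p ^ 2 → Real.tan (Real.pi / 3) * |q| ≤ p := by
    intro p q hp hq
    rw [tan_pi_div_three]
    refine abs_le_of_sq_le_sq' ?_ hp |>.2
    rw [mul_pow, Real.sq_sqrt (by norm_num), sq_abs]
    exact hq
  rcases hq with ⟨hk, hq⟩ | ⟨hk, hq⟩
  · refine of_angle hB.inv (θ := 2 * Real.pi * k) 1 0 (by push_cast; ring) (by positivity)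
      (τ := Real.pi / 4) ?_ (by linarith) hp ?_
    · rw [abs_of_pos (by positivity)]
      nlinarith
    · rw [Real.tan_pi_div_four, one_mul]
      exact abs_le_of_sq_le_sq hq hp
  · rcases le_or_gt k (1 / 3) with h | h
    · refine of_angle hB.inv (θ := 2 * Real.pi * k) 1 0 (by push_cast; ring) (by positivity)
        (τ := Real.pi / 3) ?_ (by linarith) hp (hsq3 hp hq)
      rw [abs_of_pos (by positivity)]
      nlinarith
    · rcases le_or_gt (2 / 3) k with h' | h'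
      · refine of_angle hB.inv (θ := 2 * Real.pi * k - 2 * Real.pi) 1 (-1) (by push_cast; ring)
          (by nlinarith) (τ := Real.pi / 3) ?_ (by linarith) hp (hsq3 hp hq)
        rw [abs_le]
        constructor <;> nlinarith
      · refine of_angle hB.inv (θ := 4 * Real.pi * k - 2 * Real.pi) 2 (-1) (by push_cast; ring)
          ?_ (τ := Real.pi / 3) ?_ (by linarith) hp (hsq3 hp hq)
        · intro h0
          apply hk2
          have : 2 * Real.pi * (2 * k - 1) = 0 := by linarith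
          rcases mul_eq_zero.1 this with h3 | h3
          · linarith
          · linarith
        · rw [abs_le]
          constructor <;> nlinarith

end Pool.Agent.Zk84.M3
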