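import Mathlib

/-!
A checker for covers of the product of an arc of the unit circle and a disc, and its soundness.

The data of a cover are maps `z ↦ (m + i n) z - (a + i b)` with a radius `r`. A box is in the part of
the plane on which the modulus of such a map is less than `r` if this holds at its corners. The boxes
are the leaves of a binary tree, coded in a natural number. The coordinates of the corners are counted
from the corner `-1 - i` in units `1 / S`, so that they are natural numbers.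
-/

set_option autoImplicit false

namespace Pool.Agent.Zk84.M3

/-- the map `z ↦ (m + i n) z - (a + i b)` and a radius `r` -/
structure Pc where
  m : ℤ
  n : ℤ
  a : ℤ
  b : ℤ
  r : ℤ

/-- the square of the modulus of the map at `x + i y` -/
def val (p : Pc) (x y : ℝ) : ℝ :=
  ((p.m : ℝ) * x - p.n * y - p.a) ^ 2 + ((p.m : ℝ) * y + p.n * x - p.b) ^ 2

/-- the coefficients of the square of the modulus at the shifted points -/
structure Nc where
  Q : ℕ
  Kp : ℕ
  Km : ℕ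
  Ap : ℕ
  Am : ℕ
  Bp : ℕ
  Bm : ℕ

/-- the first coordinate of the shifted centre -/
def sa (p : Pc) : ℤ := p.a + (p.m - p.n)

/-- the second coordinate of the shifted centre -/
def sb (p : Pc) : ℤ := p.b + (p.m + p.n)

/-- the constant coefficient -/
def cK (p : Pc) : ℤ := sa p * sa p + sb p * sb p - p.r * p.r

/-- the coefficient of the first coordinate -/
def cA (p : Pc) : ℤ := 2 * (p.m * sa p + p.n * sb p)

/-- the coefficient of the second coordinate -/
def cB (p : Pc) : ℤ := 2 * (p.n * sa p - p.m * sb p)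

/-- the coefficients -/
def toNc (p : Pc) : Nc where
  Q := (p.m * p.m + p.n * p.n).toNat
  Kp := (cK p).toNat
  Km := (-cK p).toNat
  Ap := (cA p).toNat
  Am := (-cA p).toNat
  Bp := (cB p).toNat
  Bm := (-cB p).toNat

/-- the left side of the test -/
def lhs (S : ℕ) (c : Nc) (X Y : ℕ) : ℕ :=
  Nat.add (Nat.mul c.Q (Nat.add (Nat.mul X X) (Nat.mul Y Y)))
    (Nat.mul S (Nat.add (Nat.mul S c.Kp) (Nat.add (Nat.mul X c.Am) (Nat.mul Y c.Bp))))

/-- the right side of the test -/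
def rhs (S : ℕ) (c : Nc) (X Y : ℕ) : ℕ :=
  Nat.mul S (Nat.add (Nat.mul S c.Km) (Nat.add (Nat.mul X c.Ap) (Nat.mul Y c.Bm)))

/-- the test at a corner -/
def corner (S : ℕ) (c : Nc) (X Y : ℕ) : Bool := Nat.ble (Nat.succ (lhs S c X Y)) (rhs S c X Y)

/-- the test of a box -/
def box (S : ℕ) (c : Nc) (X0 X1 Y0 Y1 : ℕ) : Bool :=
  and (corner S c X0 Y0) (and (corner S c X1 Y0) (and (corner S c X0 Y1) (corner S c X1 Y1)))

/-- the distance from `S` to the interval -/
def near (S X0 X1 : ℕ) : ℕ := Nat.add (Nat.sub X0 S) (Nat.sub S X1)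

/-- the box is outside the unit disc -/
def outside (S X0 X1 Y0 Y1 : ℕ) : Bool :=
  Nat.ble (Nat.succ (Nat.mul S S)) (Nat.add (Nat.mul (near S X0 X1) (near S X0 X1))
    (Nat.mul (near S Y0 Y1) (near S Y0 Y1)))

/-- all elements pass the test -/
def allL : List Nc → (Nc → Bool) → Bool
  | [], _ => true
  | c :: l, f => and (f c) (allL l f)

/-- the check of a tree of boxes -/
def tree (S : ℕ) (nc : ℕ) (fd : ℕ → List Nc) : ℕ → ℕ → ℕ → ℕ → ℕ → ℕ → Option ℕ
  | 0, _, _, _, _, _ => none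
  | f + 1, T, X0, X1, Y0, Y1 =>
    match Nat.mod T 512 with
    | 0 => bif outside S X0 X1 Y0 Y1 then some (Nat.div T 512) else none
    | k + 1 =>
      bif Nat.ble k 126 then
        (bif and (Nat.ble (Nat.succ k) nc) (allL (fd k) (fun c => box S c X0 X1 Y0 Y1)) then
          some (Nat.div T 512) else none)
      else bif Nat.ble k 318 then
        match tree S nc fd f (Nat.div T 512) X0 (Nat.sub k 127) Y0 Y1 with
        | some T' => tree S nc fd f T' (Nat.sub k 127) X1 Y0 Y1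
        | none => none
      else
        match tree S nc fd f (Nat.div T 512) X0 X1 Y0 (Nat.sub k 319) with
        | some T' => tree S nc fd f T' X0 X1 (Nat.sub k 319) Y1
        | none => none

theorem toNat_diff (n : ℤ) : ((n.toNat : ℕ) : ℝ) - (((-n).toNat : ℕ) : ℝ) = (n : ℝ) := by
  have := Int.toNat_sub_toNat_neg n
  exact_mod_cast this

/-- the meaning of the two sides of the test -/
theorem sides (S : ℕ) (p : Pc) (X Y : ℕ) :
    ((lhs S (toNc p) X Y : ℕ) : ℝ) - ((rhs S (toNc p) X Y : ℕ) : ℝ) =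
      ((p.m : ℝ) * (X - S) - p.n * (Y - S) - S * p.a) ^ 2 +
        ((p.m : ℝ) * (Y - S) + p.n * (X - S) - S * p.b) ^ 2 - ((S : ℝ) * p.r) ^ 2 := by
  have e1 : ((lhs S (toNc p) X Y : ℕ) : ℝ) = ((toNc p).Q : ℝ) * (X * X + Y * Y) +
      S * (S * ((toNc p).Kp : ℝ) + (X * ((toNc p).Am : ℝ) + Y * ((toNc p).Bp : ℝ))) := by
    have : lhs S (toNc p) X Y = (toNc p).Q * (X * X + Y * Y) +
      S * (S * (toNc p).Kp + (X * (toNc p).Am + Y * (toNc p).Bp)) := rfl
    rw [this]; push_cast; ring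
  have e2 : ((rhs S (toNc p) X Y : ℕ) : ℝ) =
      S * (S * ((toNc p).Km : ℝ) + (X * ((toNc p).Ap : ℝ) + Y * ((toNc p).Bm : ℝ))) := by
    have : rhs S (toNc p) X Y =
      S * (S * (toNc p).Km + (X * (toNc p).Ap + Y * (toNc p).Bm)) := rfl
    rw [this]; push_cast; ring
  have hQ : ((toNc p).Q : ℝ) = (p.m : ℝ) * p.m + p.n * p.n := by
    have h : ((p.m * p.m + p.n * p.n).toNat : ℤ) = p.m * p.m + p.n * p.n :=
      Int.toNat_of_nonneg (add_nonneg (mul_self_nonneg _) (mul_self_nonneg _))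
    have h' : ((((p.m * p.m + p.n * p.n).toNat : ℕ) : ℤ) : ℝ) = (p.m : ℝ) * p.m + p.n * p.n := by
      rw [h]; push_cast; ring
    exact_mod_cast h'
  have hK : ((toNc p).Kp : ℝ) - ((toNc p).Km : ℝ) = cK p := toNat_diff _
  have hA : ((toNc p).Ap : ℝ) - ((toNc p).Am : ℝ) = cA p := toNat_diff _
  have hB : ((toNc p).Bp : ℝ) - ((toNc p).Bm : ℝ) = cB p := toNat_diff _
  have e3 : ((lhs S (toNc p) X Y : ℕ) : ℝ) - ((rhs S (toNc p) X Y : ℕ) : ℝ) =
      ((toNc p).Q : ℝ) * (X * X + Y * Y) + S * (S * (((toNc p).Kp : ℝ) - ((toNc p).Km : ℝ)) -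
        X * (((toNc p).Ap : ℝ) - ((toNc p).Am : ℝ)) +
        Y * (((toNc p).Bp : ℝ) - ((toNc p).Bm : ℝ))) := by
    rw [e1, e2]; ring
  rw [e3, hQ, hK, hA, hB]
  unfold cK cA cB sa sb
  push_cast
  ring

theorem corner_iff {S : ℕ} {p : Pc} {X Y : ℕ} (h : corner S (toNc p) X Y = true) :
    ((p.m : ℝ) * (X - S) - p.n * (Y - S) - S * p.a) ^ 2 +
        ((p.m : ℝ) * (Y - S) + p.n * (X - S) - S * p.b) ^ 2 < ((S : ℝ) * p.r) ^ 2 := by
  have h1 : lhs S (toNc p) X Y < rhs S (toNc p) X Y := Nat.le_of_ble_eq_true h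
  have h2 : ((lhs S (toNc p) X Y : ℕ) : ℝ) < ((rhs S (toNc p) X Y : ℕ) : ℝ) := by exact_mod_cast h1
  linarith [sides S p X Y]

/-- the square of the distance is at most its bilinear interpolation -/
theorem interp (m1 m2 u v X0 Y0 s t a b lim : ℝ) (ha : 0 ≤ a) (ha' : a ≤ 1)
    (hb : 0 ≤ b) (hb' : b ≤ 1)
    (h00 : (m1 * X0 - m2 * Y0 - u) ^ 2 + (m1 * Y0 + m2 * X0 - v) ^ 2 < lim)
    (h10 : (m1 * (X0 + s) - m2 * Y0 - u) ^ 2 + (m1 * Y0 + m2 * (X0 + s) - v) ^ 2 < lim)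
    (h01 : (m1 * X0 - m2 * (Y0 + t) - u) ^ 2 + (m1 * (Y0 + t) + m2 * X0 - v) ^ 2 < lim)
    (h11 : (m1 * (X0 + s) - m2 * (Y0 + t) - u) ^ 2 + (m1 * (Y0 + t) + m2 * (X0 + s) - v) ^ 2 < lim) :
    (m1 * (X0 + a * s) - m2 * (Y0 + b * t) - u) ^ 2 +
      (m1 * (Y0 + b * t) + m2 * (X0 + a * s) - v) ^ 2 < lim := by
  have e : (m1 * (X0 + a * s) - m2 * (Y0 + b * t) - u) ^ 2 +
      (m1 * (Y0 + b * t) + m2 * (X0 + a * s) - v) ^ 2 =
      (1 - a) * (1 - b) * ((m1 * X0 - m2 * Y0 - u) ^ 2 + (m1 * Y0 + m2 * X0 - v) ^ 2) +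
      a * (1 - b) * ((m1 * (X0 + s) - m2 * Y0 - u) ^ 2 + (m1 * Y0 + m2 * (X0 + s) - v) ^ 2) +
      (1 - a) * b * ((m1 * X0 - m2 * (Y0 + t) - u) ^ 2 + (m1 * (Y0 + t) + m2 * X0 - v) ^ 2) +
      a * b * ((m1 * (X0 + s) - m2 * (Y0 + t) - u) ^ 2 +
        (m1 * (Y0 + t) + m2 * (X0 + s) - v) ^ 2) -
      (m1 ^ 2 + m2 ^ 2) * (s ^ 2 * (a * (1 - a)) + t ^ 2 * (b * (1 - b))) := by ring
  have a1 : 0 ≤ 1 - a := by linarith
  have b1 : 0 ≤ 1 - b := by linarith
  have w00 : 0 ≤ (1 - a) * (1 - b) := mul_nonneg a1 b1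
  have w10 : 0 ≤ a * (1 - b) := mul_nonneg ha b1
  have w01 : 0 ≤ (1 - a) * b := mul_nonneg a1 hb
  have w11 : 0 ≤ a * b := mul_nonneg ha hb
  have hsum : (1 - a) * (1 - b) + a * (1 - b) + (1 - a) * b + a * b = 1 := by ring
  have hneg : 0 ≤ (m1 ^ 2 + m2 ^ 2) * (s ^ 2 * (a * (1 - a)) + t ^ 2 * (b * (1 - b))) := by
    have := mul_nonneg ha a1
    have := mul_nonneg hb b1
    positivity
  set F00 := (m1 * X0 - m2 * Y0 - u) ^ 2 + (m1 * Y0 + m2 * X0 - v) ^ 2
  set F10 := (m1 * (X0 + s) - m2 * Y0 - u) ^ 2 + (m1 * Y0 + m2 * (X0 + s) - v) ^ 2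
  set F01 := (m1 * X0 - m2 * (Y0 + t) - u) ^ 2 + (m1 * (Y0 + t) + m2 * X0 - v) ^ 2
  set F11 := (m1 * (X0 + s) - m2 * (Y0 + t) - u) ^ 2 + (m1 * (Y0 + t) + m2 * (X0 + s) - v) ^ 2
  set M := max (max F00 F10) (max F01 F11) with hM
  have hMlt : M < lim := max_lt (max_lt h00 h10) (max_lt h01 h11)
  have k00 : F00 ≤ M := le_trans (le_max_left _ _) (le_max_left _ _)
  have k10 : F10 ≤ M := le_trans (le_max_right _ _) (le_max_left _ _)
  have k01 : F01 ≤ M := le_trans (le_max_left _ _) (le_max_right _ _)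
  have k11 : F11 ≤ M := le_trans (le_max_right _ _) (le_max_right _ _)
  have t0 := mul_le_mul_of_nonneg_left k00 w00
  have t1 := mul_le_mul_of_nonneg_left k10 w10
  have t2 := mul_le_mul_of_nonneg_left k01 w01
  have t3 := mul_le_mul_of_nonneg_left k11 w11
  have : (1 - a) * (1 - b) * M + a * (1 - b) * M + (1 - a) * b * M + a * b * M = M := by ring
  rw [e]
  linarith

theorem exists_par {X0 X1 x : ℝ} (h0 : X0 ≤ x) (h1 : x ≤ X1) :
    ∃ a : ℝ, 0 ≤ a ∧ a ≤ 1 ∧ x = X0 + a * (X1 - X0) := by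
  rcases (h0.trans h1).eq_or_lt with h | h
  · exact ⟨0, le_rfl, zero_le_one, by linarith⟩
  · have h2 : 0 < X1 - X0 := by linarith
    exact ⟨(x - X0) / (X1 - X0), div_nonneg (by linarith) h2.le, (div_le_one h2).2 (by linarith),
      by rw [div_mul_cancel₀ _ h2.ne']; ring⟩

theorem box_sound {S : ℕ} (hS : 0 < S) {p : Pc} {X0 X1 Y0 Y1 : ℕ}
    (h : box S (toNc p) X0 X1 Y0 Y1 = true) {x y : ℝ} (h1 : (X0 : ℝ) ≤ S * x + S)
    (h2 : (S : ℝ) * x + S ≤ X1) (h3 : (Y0 : ℝ) ≤ S * y + S) (h4 : (S : ℝ) * y + S ≤ Y1) :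
    val p x y < (p.r : ℝ) ^ 2 := by
  simp only [box, Bool.and_eq_true] at h
  obtain ⟨k00, k10, k01, k11⟩ := h
  replace k00 := corner_iff k00
  replace k10 := corner_iff k10
  replace k01 := corner_iff k01
  replace k11 := corner_iff k11
  have hS' : (0 : ℝ) < S := by exact_mod_cast hS
  obtain ⟨a, ha, ha', ea⟩ := exists_par h1 h2
  obtain ⟨b, hb, hb', eb⟩ := exists_par h3 h4
  have i1 : (X0 : ℝ) - S + (X1 - X0) = X1 - S := by ring
  have i2 : (Y0 : ℝ) - S + (Y1 - Y0) = Y1 - S := by ring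
  have key := interp p.m p.n (S * p.a) (S * p.b) (X0 - S) (Y0 - S) (X1 - X0) (Y1 - Y0) a b
    (((S : ℝ) * p.r) ^ 2) ha ha' hb hb' k00 (by rw [i1]; exact k10) (by rw [i2]; exact k01)
    (by rw [i1, i2]; exact k11)
  have j1 : (X0 : ℝ) - S + a * (X1 - X0) = S * x := by linarith
  have j2 : (Y0 : ℝ) - S + b * (Y1 - Y0) = S * y := by linarith
  rw [j1, j2] at key
  have e3 : ((p.m : ℝ) * (S * x) - p.n * (S * y) - S * p.a) ^ 2 +
      ((p.m : ℝ) * (S * y) + p.n * (S * x) - S * p.b) ^ 2 = (S : ℝ) ^ 2 * val p x y := by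
    unfold val; ring
  rw [e3, mul_pow] at key
  exact lt_of_mul_lt_mul_left key (by positivity)

theorem near_sq {S X0 X1 : ℕ} {t : ℝ} (h1 : (X0 : ℝ) ≤ t + S) (h2 : t + S ≤ X1) :
    ((near S X0 X1 : ℕ) : ℝ) * ((near S X0 X1 : ℕ) : ℝ) ≤ t * t := by
  have e : near S X0 X1 = (X0 - S) + (S - X1) := rfl
  have h3 : X0 ≤ X1 := by exact_mod_cast h1.trans h2
  rw [e]
  rcases le_total X0 S with h | h
  · rcases le_total S X1 with h' | h'
    · have : X0 - S + (S - X1) = 0 := by omega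
      rw [this]
      simpa using mul_self_nonneg t
    · have : X0 - S + (S - X1) = S - X1 := by omega
      rw [this, Nat.cast_sub h']
      have : (X1 : ℝ) ≤ S := by exact_mod_cast h'
      nlinarith
  · have : X0 - S + (S - X1) = X0 - S := by omega
    rw [this, Nat.cast_sub h]
    have : (S : ℝ) ≤ X0 := by exact_mod_cast h
    nlinarith

theorem outside_sound {S : ℕ} {X0 X1 Y0 Y1 : ℕ} (h : outside S X0 X1 Y0 Y1 = true) {x y : ℝ}
    (h1 : (X0 : ℝ) ≤ S * x + S) (h2 : (S : ℝ) * x + S ≤ X1)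
    (h3 : (Y0 : ℝ) ≤ S * y + S) (h4 : (S : ℝ) * y + S ≤ Y1) (hxy : x ^ 2 + y ^ 2 ≤ 1) : False := by
  have k : S * S < near S X0 X1 * near S X0 X1 + near S Y0 Y1 * near S Y0 Y1 :=
    Nat.le_of_ble_eq_true h
  have k' : ((S : ℝ)) * S < ((near S X0 X1 : ℕ) : ℝ) * ((near S X0 X1 : ℕ) : ℝ) +
      ((near S Y0 Y1 : ℕ) : ℝ) * ((near S Y0 Y1 : ℕ) : ℝ) := by exact_mod_cast k
  have a := near_sq h1 h2
  have b := near_sq h3 h4
  have : (S : ℝ) * x * (S * x) + S * y * (S * y) = S ^ 2 * (x ^ 2 + y ^ 2) := by ring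
  have h5 : (S : ℝ) ^ 2 * (x ^ 2 + y ^ 2) ≤ S ^ 2 * 1 :=
    mul_le_mul_of_nonneg_left hxy (by positivity)
  nlinarith

theorem allL_sound {f : Nc → Bool} : ∀ l : List Nc, allL l f = true → ∀ c ∈ l, f c = true
  | [], _, c, hc => absurd hc (by simp)
  | d :: l, h, c, hc => by
    simp only [allL, Bool.and_eq_true] at h
    rcases List.mem_cons.1 hc with h1 | h1
    · rw [h1]; exact h.1
    · exact allL_sound l h.2 c h1

theorem tree_sound {S : ℕ} (hS : 0 < S) {nc : ℕ} {fp : ℕ → List Pc} : ∀ (f T : ℕ)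
    (X0 X1 Y0 Y1 : ℕ) (T' : ℕ),
    tree S nc (fun j => (fp j).map toNc) f T X0 X1 Y0 Y1 = some T' → ∀ x y : ℝ,
    (X0 : ℝ) ≤ S * x + S → (S : ℝ) * x + S ≤ X1 → (Y0 : ℝ) ≤ S * y + S →
    (S : ℝ) * y + S ≤ Y1 →
    x ^ 2 + y ^ 2 ≤ 1 → ∃ j < nc, ∀ p ∈ fp j, val p x y < (p.r : ℝ) ^ 2 := by
  intro f
  induction f with
  | zero => intro T X0 X1 Y0 Y1 T' h; simp [tree] at h
  | succ f ih =>
    intro T X0 X1 Y0 Y1 T' h x y h1 h2 h3 h4 hxy
    simp only [tree] at h
    cases hk : Nat.mod T 512 with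
    | zero =>
      rw [hk] at h
      cases ho : outside S X0 X1 Y0 Y1 with
      | true => exact (outside_sound ho h1 h2 h3 h4 hxy).elim
      | false => simp only [ho, cond_false] at h; exact absurd h (by simp)
    | succ k =>
      rw [hk] at h
      simp only at h
      cases hb1 : Nat.ble k 126 with
      | true =>
        rw [hb1, cond_true] at h
        cases hc : (and (Nat.ble (Nat.succ k) nc)
            (allL ((fp k).map toNc) (fun c => box S c X0 X1 Y0 Y1))) with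
        | false => rw [hc, cond_false] at h; exact absurd h (by simp)
        | true =>
          rw [Bool.and_eq_true] at hc
          have hle := Nat.le_of_ble_eq_true hc.1
          refine ⟨k, hle, fun p hp => ?_⟩
          exact box_sound hS (allL_sound _ hc.2 (toNc p) (List.mem_map_of_mem hp)) h1 h2 h3 h4
      | false =>
        rw [hb1, cond_false] at h
        cases hb2 : Nat.ble k 318 with
        | true =>
          rw [hb2, cond_true] at h
          cases ht : tree S nc (fun j => (fp j).map toNc) f (Nat.div T 512) X0 (Nat.sub k 127)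
              Y0 Y1 with
          | none => rw [ht] at h; exact absurd h (by simp)
          | some T1 =>
            rw [ht] at h
            rcases le_total ((S : ℝ) * x + S) ((Nat.sub k 127 : ℕ) : ℝ) with hx | hx
            · exact ih _ _ _ _ _ _ ht x y h1 hx h3 h4 hxy
            · exact ih _ _ _ _ _ _ h x y hx h2 h3 h4 hxy
        | false =>
          rw [hb2, cond_false] at h
          cases ht : tree S nc (fun j => (fp j).map toNc) f (Nat.div T 512) X0 X1 Y0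
              (Nat.sub k 319) with
          | none => rw [ht] at h; exact absurd h (by simp)
          | some T1 =>
            rw [ht] at h
            rcases le_total ((S : ℝ) * y + S) ((Nat.sub k 319 : ℕ) : ℝ) with hy | hy
            · exact ih _ _ _ _ _ _ ht x y h1 h2 h3 hy hxy
            · exact ih _ _ _ _ _ _ h x y h1 h2 hy h4 hxy

/-- an arc of the unit circle -/
theorem arc_real {m n a b r A B V A' B' V' : ℝ} (hV : 0 < V) (hV' : 0 < V')
    (hv : A * A + B * B = V * V) (hv' : A' * A' + B' * B' = V' * V')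
    (hcr : 0 < A * B' - B * A') (hT : r ^ 2 ≤ m ^ 2 + n ^ 2 + a ^ 2 + b ^ 2)
    (h : (m * A - n * B - V * a) ^ 2 + (m * B + n * A - V * b) ^ 2 ≤ (V * r) ^ 2)
    (h' : (m * A' - n * B' - V' * a) ^ 2 + (m * B' + n * A' - V' * b) ^ 2 ≤ (V' * r) ^ 2)
    {x y : ℝ} (hxy : x ^ 2 + y ^ 2 = 1) (h1 : 0 ≤ A * y - B * x) (h2 : 0 ≤ x * B' - y * A') :
    (m * x - n * y - a) ^ 2 + (m * y + n * x - b) ^ 2 ≤ r ^ 2 := by
  set q1 : ℝ := m * a + n * b with hq1
  set q2 : ℝ := n * a - m * b with hq2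
  set T : ℝ := m ^ 2 + n ^ 2 + a ^ 2 + b ^ 2 - r ^ 2 with hTT
  have T0 : 0 ≤ T := by rw [hTT]; linarith
  have r1 : V * T ≤ 2 * (A * q1 - B * q2) := by
    have e : (m * A - n * B - V * a) ^ 2 + (m * B + n * A - V * b) ^ 2 - (V * r) ^ 2 =
        (m ^ 2 + n ^ 2) * (A * A + B * B) + V ^ 2 * (a ^ 2 + b ^ 2) - V ^ 2 * r ^ 2 -
          2 * V * (A * q1 - B * q2) := by rw [hq1, hq2]; ring
    rw [hv] at e
    have e' : V * (V * T - 2 * (A * q1 - B * q2)) ≤ 0 := by
      have : V * (V * T - 2 * (A * q1 - B * q2)) = (m ^ 2 + n ^ 2) * (V * V) +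
        V ^ 2 * (a ^ 2 + b ^ 2) - V ^ 2 * r ^ 2 - 2 * V * (A * q1 - B * q2) := by
        rw [hTT]; ring
      linarith
    have := nonpos_of_mul_nonpos_right e' hV
    linarith
  have r1' : V' * T ≤ 2 * (A' * q1 - B' * q2) := by
    have e : (m * A' - n * B' - V' * a) ^ 2 + (m * B' + n * A' - V' * b) ^ 2 - (V' * r) ^ 2 =
        (m ^ 2 + n ^ 2) * (A' * A' + B' * B') + V' ^ 2 * (a ^ 2 + b ^ 2) - V' ^ 2 * r ^ 2 -
          2 * V' * (A' * q1 - B' * q2) := by rw [hq1, hq2]; ring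
    rw [hv'] at e
    have e' : V' * (V' * T - 2 * (A' * q1 - B' * q2)) ≤ 0 := by
      have : V' * (V' * T - 2 * (A' * q1 - B' * q2)) = (m ^ 2 + n ^ 2) * (V' * V') +
        V' ^ 2 * (a ^ 2 + b ^ 2) - V' ^ 2 * r ^ 2 - 2 * V' * (A' * q1 - B' * q2) := by
        rw [hTT]; ring
      linarith
    have := nonpos_of_mul_nonpos_right e' hV'
    linarith
  set D : ℝ := A * B' - B * A' with hD
  set l : ℝ := (x * B' - y * A') / D with hl
  set l' : ℝ := (A * y - B * x) / D with hl'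
  have l0 : 0 ≤ l := div_nonneg h2 hcr.le
  have l0' : 0 ≤ l' := div_nonneg h1 hcr.le
  have ex : x = l * A + l' * A' := by
    rw [hl, hl']
    field_simp
    rw [hD]; ring
  have ey : y = l * B + l' * B' := by
    rw [hl, hl']
    field_simp
    rw [hD]; ring
  have hdot : A * A' + B * B' ≤ V * V' := by
    have h5 : (A * A' + B * B') ^ 2 ≤ (V * V') ^ 2 := by
      have : (V * V') ^ 2 = (A * A + B * B) * (A' * A' + B' * B') := by
        rw [hv, hv']; ring
      rw [this]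
      nlinarith [sq_nonneg (A * B' - B * A')]
    exact le_trans (le_abs_self _) (abs_le_of_sq_le_sq h5 (by positivity))
  have hsum : 1 ≤ l * V + l' * V' := by
    have h6 : (1 : ℝ) ≤ (l * V + l' * V') ^ 2 := by
      have h7 : x ^ 2 + y ^ 2 = l ^ 2 * (A * A + B * B) + l' ^ 2 * (A' * A' + B' * B') +
          2 * (l * l') * (A * A' + B * B') := by rw [ex, ey]; ring
      have h8 : 2 * (l * l') * (A * A' + B * B') ≤ 2 * (l * l') * (V * V') :=
        mul_le_mul_of_nonneg_left hdot (by positivity)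
      rw [hv, hv', hxy] at h7
      calc (1 : ℝ) = _ := h7
        _ ≤ l ^ 2 * (V * V) + l' ^ 2 * (V' * V') + 2 * (l * l') * (V * V') := by linarith
        _ = (l * V + l' * V') ^ 2 := by ring
    have h9 : 0 ≤ l * V + l' * V' := by positivity
    exact (one_le_sq_iff₀ h9).1 h6
  have hre : T ≤ 2 * (x * q1 - y * q2) := by
    have e : x * q1 - y * q2 = l * (A * q1 - B * q2) + l' * (A' * q1 - B' * q2) := by
      rw [ex, ey]; ring
    rw [e]
    have k1 := mul_le_mul_of_nonneg_left r1 l0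
    have k2 := mul_le_mul_of_nonneg_left r1' l0'
    have k3 : T ≤ (l * V + l' * V') * T := le_mul_of_one_le_left T0 hsum
    have k4 : (l * V + l' * V') * T = l * (V * T) + l' * (V' * T) := by ring
    linarith
  have efin : (m * x - n * y - a) ^ 2 + (m * y + n * x - b) ^ 2 =
      (m ^ 2 + n ^ 2) * (x ^ 2 + y ^ 2) + (a ^ 2 + b ^ 2) - 2 * (x * q1 - y * q2) := by
    rw [hq1, hq2]; ring
  rw [efin, hxy]
  have : r ^ 2 = (m ^ 2 + n ^ 2 + a ^ 2 + b ^ 2) - T := by
    rw [hTT]; ring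
  rw [this]
  linarith

/-- the end points of the arcs, shifted: the angle grows from `0` at `P = 0` to `π / 2` at `P = 64`
and to `π` at `P = 128` -/
def ptX (P : ℕ) : ℕ := bif Nat.ble P 64 then 8192 else (128 - P) * (128 - P)

/-- the second coordinate of the end points, shifted -/
def ptY (P : ℕ) : ℕ := bif Nat.ble P 64 then (64 + P) * (64 + P) else 8192

/-- the modulus of the end points -/
def ptV (P : ℕ) : ℕ := bif Nat.ble P 64 then 4096 + P * P else 4096 + (P - 64) * (P - 64)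

/-- the first coordinate of the end point -/
def ptA (P : ℕ) : ℝ := (ptX P : ℝ) - ptV P

/-- the second coordinate of the end point -/
def ptB (P : ℕ) : ℝ := (ptY P : ℝ) - ptV P

theorem pt_sq {P : ℕ} (hP : P ≤ 128) :
    ptA P * ptA P + ptB P * ptB P = (ptV P : ℝ) * ptV P := by
  unfold ptA ptB ptX ptY ptV
  cases h : Nat.ble P 64 with
  | true =>
    simp only [cond_true]
    push_cast
    ring
  | false =>
    have h1 : 64 < P := by
      by_contra hn
      rw [Nat.ble_eq_true_of_le (not_lt.1 hn)] at h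
      exact absurd h (by simp)
    simp only [cond_false]
    push_cast [Nat.cast_sub hP, Nat.cast_sub h1.le]
    ring

theorem ptV_pos (P : ℕ) : (0 : ℝ) < ptV P := by
  unfold ptV
  cases Nat.ble P 64 <;> simp only [cond_true, cond_false] <;> positivity

/-- the data of an arc -/
structure ArcD where
  P0 : ℕ
  P1 : ℕ
  S : ℕ
  nc : ℕ
  C : ℕ
  T : ℕ

/-- all numbers below `n` pass the test -/
def allB : ℕ → (ℕ → Bool) → Bool
  | 0, _ => true
  | n + 1, f => and (f n) (allB n f)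

theorem allB_sound {f : ℕ → Bool} : ∀ n : ℕ, allB n f = true → ∀ j < n, f j = true := by
  intro n
  induction n with
  | zero => intro _ j hj; exact absurd hj (Nat.not_lt_zero j)
  | succ n ih =>
    intro h j hj
    simp only [allB, Bool.and_eq_true] at h
    rcases Nat.lt_succ_iff_lt_or_eq.1 hj with h1 | h1
    · exact ih h.2 j h1
    · rw [h1]; exact h.1

/-- all pieces pass the test -/
def allP : List Pc → (Pc → Bool) → Bool
  | [], _ => true
  | c :: l, f => and (f c) (allP l f)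

theorem allP_sound {f : Pc → Bool} : ∀ l : List Pc, allP l f = true → ∀ c ∈ l, f c = true
  | [], _, c, hc => absurd hc (by simp)
  | d :: l, h, c, hc => by
    simp only [allP, Bool.and_eq_true] at h
    rcases List.mem_cons.1 hc with h1 | h1
    · rw [h1]; exact h.1
    · exact allP_sound l h.2 c h1

/-- the test at the end point of an arc -/
def okE (c : Nc) (P : ℕ) : Bool :=
  Nat.ble (lhs (ptV P) c (ptX P) (ptY P)) (rhs (ptV P) c (ptX P) (ptY P))

/-- the test of a piece on an arc -/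
def okA (P0 P1 : ℕ) (p : Pc) : Bool :=
  and (decide (0 ≤ p.r)) (and (decide (p.r ≤ p.m)) (and (okE (toNc p) P0) (okE (toNc p) P1)))

theorem okE_iff {p : Pc} {P : ℕ} (h : okE (toNc p) P = true) :
    ((p.m : ℝ) * ptA P - p.n * ptB P - ptV P * p.a) ^ 2 +
        ((p.m : ℝ) * ptB P + p.n * ptA P - ptV P * p.b) ^ 2 ≤ ((ptV P : ℝ) * p.r) ^ 2 := by
  have h1 : lhs (ptV P) (toNc p) (ptX P) (ptY P) ≤ rhs (ptV P) (toNc p) (ptX P) (ptY P) :=
    Nat.le_of_ble_eq_true h
  have h2 : ((lhs (ptV P) (toNc p) (ptX P) (ptY P) : ℕ) : ℝ) ≤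
    ((rhs (ptV P) (toNc p) (ptX P) (ptY P) : ℕ) : ℝ) := by exact_mod_cast h1
  have := sides (ptV P) p (ptX P) (ptY P)
  unfold ptA ptB
  linarith

theorem okA_sound {P0 P1 : ℕ} {p : Pc} (h : okA P0 P1 p = true) (hP0 : P0 ≤ 128)
    (hP1 : P1 ≤ 128) (hcr : 0 < ptA P0 * ptB P1 - ptB P0 * ptA P1) {x y : ℝ}
    (hxy : x ^ 2 + y ^ 2 = 1) (h1 : 0 ≤ ptA P0 * y - ptB P0 * x)
    (h2 : 0 ≤ x * ptB P1 - y * ptA P1) : 0 ≤ p.r ∧ val p x y ≤ (p.r : ℝ) ^ 2 := by
  simp only [okA, Bool.and_eq_true, decide_eq_true_eq] at h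
  obtain ⟨hr, hm, e0, e1⟩ := h
  have hr' : (0 : ℝ) ≤ p.r := by exact_mod_cast hr
  have hm' : (p.r : ℝ) ≤ p.m := by exact_mod_cast hm
  exact ⟨hr, arc_real (ptV_pos P0) (ptV_pos P1) (pt_sq hP0) (pt_sq hP1) hcr
    (by nlinarith [sq_nonneg (p.n : ℝ), sq_nonneg (p.a : ℝ), sq_nonneg (p.b : ℝ)])
    (okE_iff e0) (okE_iff e1) hxy h1 h2⟩

/-- the cross product of the end points is positive -/
def crOK (P0 P1 : ℕ) : Bool :=
  decide (0 < ((ptX P0 : ℤ) - ptV P0) * ((ptY P1 : ℤ) - ptV P1) -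
    ((ptY P0 : ℤ) - ptV P0) * ((ptX P1 : ℤ) - ptV P1))

theorem crOK_iff {P0 P1 : ℕ} (h : crOK P0 P1 = true) :
    0 < ptA P0 * ptB P1 - ptB P0 * ptA P1 := by
  have h1 := of_decide_eq_true h
  unfold ptA ptB
  exact_mod_cast h1

/-- the check of the data of an arc; `Yb = 0` for the disc, `Yb = 1` for the upper half disc -/
def arcOK (fa fd : ℕ → ℕ → List Pc) (side : ℕ → ℕ → Bool) (Yb : ℕ) (A : ArcD) : Bool :=
  and (and (Nat.ble 1 A.S) (and (Nat.ble A.P0 128) (and (Nat.ble A.P1 128) (crOK A.P0 A.P1))))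
    (and (allB A.nc (fun j => and (side A.C j)
      (and (allP (fa A.C j) (okA A.P0 A.P1)) (allP (fd A.C j) (fun p => decide (0 < p.r))))))
      (tree A.S A.nc (fun j => (fd A.C j).map toNc) 60 A.T 0 (2 * A.S) (Yb * A.S)
        (2 * A.S)).isSome)

/-- the conclusion for a point of the arc and a point of the disc -/
def Hit (fa fd : ℕ → ℕ → List Pc) (side : ℕ → ℕ → Bool) (x y u v : ℝ) : Prop :=
  ∃ C j : ℕ, side C j = true ∧ (∀ p ∈ fa C j, 0 ≤ p.r ∧ val p x y ≤ (p.r : ℝ) ^ 2) ∧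
    ∀ p ∈ fd C j, 0 < p.r ∧ val p u v < (p.r : ℝ) ^ 2

theorem arc_hit {fa fd : ℕ → ℕ → List Pc} {side : ℕ → ℕ → Bool} {Yb : ℕ} {A : ArcD}
    (h : arcOK fa fd side Yb A = true) {x y u v : ℝ} (hxy : x ^ 2 + y ^ 2 = 1)
    (h1 : 0 ≤ ptA A.P0 * y - ptB A.P0 * x) (h2 : 0 ≤ x * ptB A.P1 - y * ptA A.P1)
    (huv : u ^ 2 + v ^ 2 ≤ 1) (hv : (Yb : ℝ) - 1 ≤ v) : Hit fa fd side x y u v := by
  simp only [arcOK, Bool.and_eq_true] at h
  obtain ⟨⟨hS, hP0, hP1, hcr⟩, hall, htree⟩ := h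
  replace hS : 0 < A.S := Nat.le_of_ble_eq_true hS
  replace hP0 := Nat.le_of_ble_eq_true hP0
  replace hP1 := Nat.le_of_ble_eq_true hP1
  obtain ⟨T', hT'⟩ := Option.isSome_iff_exists.1 htree
  have hS' : (0 : ℝ) < A.S := by exact_mod_cast hS
  have hu1 : |u| ≤ 1 := abs_le_one_iff_mul_self_le_one.2 (by nlinarith [sq_nonneg v])
  have hv1 : |v| ≤ 1 := abs_le_one_iff_mul_self_le_one.2 (by nlinarith [sq_nonneg u])
  rw [abs_le] at hu1 hv1
  obtain ⟨j, hj, hd⟩ := tree_sound hS 60 A.T _ _ _ _ T' hT' u v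
    (by push_cast; nlinarith) (by push_cast; nlinarith) (by push_cast; nlinarith)
    (by push_cast; nlinarith) huv
  have hc := allB_sound _ hall j hj
  simp only [Bool.and_eq_true] at hc
  obtain ⟨hs, hfa, hfd⟩ := hc
  refine ⟨A.C, j, hs, fun p hp => ?_, fun p hp => ⟨?_, hd p hp⟩⟩
  · exact okA_sound (allP_sound _ hfa p hp) hP0 hP1 (crOK_iff hcr) hxy h1 h2
  · exact of_decide_eq_true (allP_sound _ hfd p hp)

/-- the arcs follow each other from `P` to `E` -/
def chainOK (E : ℕ) : ℕ → List ArcD → Bool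
  | P, [] => decide (P = E)
  | P, A :: l => decide (A.P0 = P) && chainOK E A.P1 l

/-- all arcs pass the test -/
def allArc : List ArcD → (ArcD → Bool) → Bool
  | [], _ => true
  | c :: l, f => and (f c) (allArc l f)

theorem chain_hit {fa fd : ℕ → ℕ → List Pc} {side : ℕ → ℕ → Bool} {Yb E : ℕ} {x y u v : ℝ}
    (hxy : x ^ 2 + y ^ 2 = 1) (hE : 0 ≤ x * ptB E - y * ptA E)
    (huv : u ^ 2 + v ^ 2 ≤ 1) (hv : (Yb : ℝ) - 1 ≤ v) : ∀ (l : List ArcD) (P : ℕ), l ≠ [] →
    allArc l (arcOK fa fd side Yb) = true → chainOK E P l = true →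
    0 ≤ ptA P * y - ptB P * x → Hit fa fd side x y u v := by
  intro l
  induction l with
  | nil => intro P h; exact absurd rfl h
  | cons A l ih =>
    intro P _ hl hch hP
    simp only [allArc, Bool.and_eq_true] at hl
    simp only [chainOK, Bool.and_eq_true, decide_eq_true_eq] at hch
    obtain ⟨h0, h1⟩ := hch
    rcases le_total 0 (x * ptB A.P1 - y * ptA A.P1) with hq | hq
    · exact arc_hit hl.1 hxy (by rw [h0]; exact hP) hq huv hv
    · by_cases hne : l = []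
      · subst hne
        simp only [chainOK, decide_eq_true_eq] at h1
        rw [h1] at hq
        refine arc_hit hl.1 hxy (by rw [h0]; exact hP) ?_ huv hv
        rw [h1]; exact hE
      · exact ih A.P1 hne hl.2 h1 (by linarith)

end Pool.Agent.Zk84.M3
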