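import Pool.Agent.Zk84.M3.Check
import Pool.Agent.Zk84.HC.Select

/-!
The families of certificates for the circle groups with the weights `(k, 1)`.
-/

set_option autoImplicit false

namespace Pool.Agent.Zk84.M3

open Complex
open Pool.Agent.Zk84.HC (rot vec vec_rot norm_le_of_sq norm_lt_of_sq)

/-- a field of the coded data -/
def fldN (C k : ℕ) : ℕ := (C >>> (16 * k)) % 65536

/-- a signed field of the coded data -/
def fld (C k : ℕ) : ℤ := (fldN C k : ℤ) - 32768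

/-- the entry of a list of directions -/
def nth : List (ℤ × ℤ × ℤ × ℤ) → ℕ → ℤ × ℤ × ℤ × ℤ
  | [], _ => (0, 0, 0, 0)
  | d :: _, 0 => d
  | _ :: l, n + 1 => nth l n

theorem nth_mem : ∀ (l : List (ℤ × ℤ × ℤ × ℤ)) (n : ℕ), n < l.length → nth l n ∈ l
  | [], n, h => absurd h (Nat.not_lt_zero n)
  | d :: l, 0, _ => List.mem_cons_self
  | d :: l, n + 1, h => List.mem_cons_of_mem _ (nth_mem l n (by simpa using h))

/-- the value of the map of a piece -/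
noncomputable def cz (p : Pc) (x : ℂ) : ℂ := (⟨p.m, p.n⟩ : ℂ) * x - ⟨p.a, p.b⟩

theorem cz_le {p : Pc} {x : ℂ} (h0 : 0 ≤ p.r) (h : val p x.re x.im ≤ (p.r : ℝ) ^ 2) :
    ‖cz p x‖ ≤ p.r := by
  refine norm_le_of_sq (by exact_mod_cast h0) ?_
  simpa [cz, val] using h

theorem cz_lt {p : Pc} {x : ℂ} (h0 : 0 < p.r) (h : val p x.re x.im < (p.r : ℝ) ^ 2) :
    ‖cz p x‖ < p.r := by
  refine norm_lt_of_sq (by exact_mod_cast h0) ?_
  simpa [cz, val] using h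

/-- the parameters of a cell -/
structure PA where
  dirs : List (ℤ × ℤ × ℤ × ℤ)
  c3 : ℤ
  fs : ℤ
  D : ℤ
  n0 : ℤ
  n1 : ℤ
  wn : ℤ
  wd : ℤ

/-- the piece for the first coordinate -/
def pc1 (P : PA) (n : ℤ) (R C j : ℕ) : Pc :=
  ⟨P.D * (fld C (8 * j + 1) + fld C (8 * j + 3)), n * fld C (8 * j + 2) + P.D * fld C (8 * j + 4),
    P.D * (nth P.dirs (fldN C (8 * j))).1, P.D * (nth P.dirs (fldN C (8 * j))).2.1,
    P.D * fld C (8 * j + R)⟩

/-- the piece for the second coordinate -/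
def pc2 (P : PA) (R C j : ℕ) : Pc :=
  ⟨fld C (8 * j + 1) + fld C (8 * j + 5), fld C (8 * j + 2),
    (nth P.dirs (fldN C (8 * j))).2.2.1, (nth P.dirs (fldN C (8 * j))).2.2.2, fld C (8 * j + R)⟩

/-- the pieces on the arc, the first face -/
def fa1 (P : PA) (C j : ℕ) : List Pc := [pc1 P P.n0 6 C j, pc1 P P.n1 6 C j]

/-- the pieces on the disc, the first face -/
def fd1 (P : PA) (C j : ℕ) : List Pc := [pc2 P 7 C j]

/-- the pieces on the arc, the second face -/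
def fa2 (P : PA) (C j : ℕ) : List Pc := [pc2 P 6 C j]

/-- the pieces on the disc, the second face -/
def fd2 (P : PA) (C j : ℕ) : List Pc := [pc1 P P.n0 7 C j, pc1 P P.n1 7 C j]

/-- the common side conditions -/
def side0 (P : PA) (C j : ℕ) : Bool :=
  Nat.blt (fldN C (8 * j)) P.dirs.length && (decide (0 ≤ fld C (8 * j + 3)) &&
    (decide (P.c3 * (fld C (8 * j + 4) * fld C (8 * j + 4)) ≤
        fld C (8 * j + 3) * fld C (8 * j + 3)) &&
      (decide (0 ≤ fld C (8 * j + 5)) && decide (fld C (8 * j + 5) ≤ P.fs * 100000))))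

/-- the side conditions, the first face -/
def side1 (P : PA) (C j : ℕ) : Bool :=
  side0 P C j &&
    decide (P.wn * fld C (8 * j + 6) + P.wd * fld C (8 * j + 7) ≤ P.wd * fld C (8 * j + 1))

/-- the side conditions, the second face -/
def side2 (P : PA) (C j : ℕ) : Bool :=
  side0 P C j &&
    decide (P.wd * fld C (8 * j + 6) + P.wn * fld C (8 * j + 7) ≤ P.wd * fld C (8 * j + 1))

/-- a point is illuminated by one of the directions -/
def GoodA (dirs : List (ℤ × ℤ × ℤ × ℤ)) (c3 fs W k : ℝ) (x1 x2 : ℂ) : Prop :=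
  ∃ d ∈ dirs, ∃ l w p q s : ℝ, 0 ≤ p ∧ c3 * q ^ 2 ≤ p ^ 2 ∧ 0 ≤ s ∧ (fs = 0 → s = 0) ∧
    W * ‖(⟨l + p, k * w + q⟩ : ℂ) * x1 - (vec d).1‖ + ‖(⟨l + s, w⟩ : ℂ) * x2 - (vec d).2‖ < l

/-- convex combination of two pieces -/
theorem piece_comb {s : Set ℂ} (hs : Convex ℝ s) {D lp w q n0 n1 k u v : ℝ} {x : ℂ}
    (h0 : n0 ≤ k * D) (h1 : k * D ≤ n1)
    (hn0 : (⟨D * lp, n0 * w + D * q⟩ : ℂ) * x - ⟨D * u, D * v⟩ ∈ s)
    (hn1 : (⟨D * lp, n1 * w + D * q⟩ : ℂ) * x - ⟨D * u, D * v⟩ ∈ s) :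
    (D : ℂ) * ((⟨lp, k * w + q⟩ : ℂ) * x - ⟨u, v⟩) ∈ s := by
  obtain ⟨t, ht, ht', e⟩ := exists_par h0 h1
  have h := hs hn0 hn1 (sub_nonneg.2 ht') ht (by ring : 1 - t + t = 1)
  have e2 : (D : ℂ) * ((⟨lp, k * w + q⟩ : ℂ) * x - ⟨u, v⟩) =
      (1 - t) • ((⟨D * lp, n0 * w + D * q⟩ : ℂ) * x - ⟨D * u, D * v⟩) +
        t • ((⟨D * lp, n1 * w + D * q⟩ : ℂ) * x - ⟨D * u, D * v⟩) := by
    apply Complex.ext
    · simp only [Complex.mul_re, Complex.sub_re, Complex.ofReal_re, Complex.ofReal_im,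
        Complex.add_re, Complex.real_smul, Complex.mul_im, Complex.sub_im]
      linear_combination (-(w * x.im)) * e
    · simp only [Complex.mul_re, Complex.sub_re, Complex.ofReal_re, Complex.ofReal_im,
        Complex.add_im, Complex.real_smul, Complex.mul_im, Complex.sub_im]
      linear_combination (w * x.re) * e
  rw [e2]
  exact h

theorem le_of_mul_norm {D r : ℝ} (hD : 0 < D) {c : ℂ}
    (h : (D : ℂ) * c ∈ Metric.closedBall (0 : ℂ) (D * r)) : ‖c‖ ≤ r := by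
  rw [mem_closedBall_zero_iff, norm_mul, Complex.norm_real, Real.norm_of_nonneg hD.le] at h
  exact le_of_mul_le_mul_left h hD

theorem lt_of_mul_norm {D r : ℝ} (hD : 0 < D) {c : ℂ}
    (h : (D : ℂ) * c ∈ Metric.ball (0 : ℂ) (D * r)) : ‖c‖ < r := by
  rw [mem_ball_zero_iff, norm_mul, Complex.norm_real, Real.norm_of_nonneg hD.le] at h
  exact lt_of_mul_lt_mul_left h hD.le

theorem cz_pc1 (P : PA) (n : ℤ) (R C j : ℕ) (x : ℂ) : cz (pc1 P n R C j) x =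
    (⟨(P.D : ℝ) * ((fld C (8 * j + 1) : ℝ) + fld C (8 * j + 3)),
      (n : ℝ) * fld C (8 * j + 2) + P.D * fld C (8 * j + 4)⟩ : ℂ) * x -
    ⟨(P.D : ℝ) * (nth P.dirs (fldN C (8 * j))).1,
      (P.D : ℝ) * (nth P.dirs (fldN C (8 * j))).2.1⟩ := by
  simp only [cz, pc1]
  push_cast
  rfl

theorem cz_pc2 (P : PA) (R C j : ℕ) (x : ℂ) : cz (pc2 P R C j) x =
    (⟨(fld C (8 * j + 1) : ℝ) + fld C (8 * j + 5), (fld C (8 * j + 2) : ℝ)⟩ : ℂ) * x -
    (vec (nth P.dirs (fldN C (8 * j)))).2 := by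
  simp only [cz, pc2, vec]
  push_cast
  rfl

theorem goodA_of {P : PA} {k : ℝ} {x1 x2 : ℂ} {C j : ℕ}
    (h0 : side0 P C j = true) {A B : ℝ}
    (hA : ‖(⟨(fld C (8 * j + 1) : ℝ) + fld C (8 * j + 3),
      k * fld C (8 * j + 2) + fld C (8 * j + 4)⟩ : ℂ) * x1 -
      (vec (nth P.dirs (fldN C (8 * j)))).1‖ = A)
    (hB : ‖(⟨(fld C (8 * j + 1) : ℝ) + fld C (8 * j + 5), (fld C (8 * j + 2) : ℝ)⟩ : ℂ) * x2 -
      (vec (nth P.dirs (fldN C (8 * j)))).2‖ = B)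
    (hlt : (P.wn / P.wd : ℝ) * A + B < fld C (8 * j + 1)) :
    GoodA P.dirs P.c3 P.fs (P.wn / P.wd) k x1 x2 := by
  simp only [side0, Bool.and_eq_true, decide_eq_true_eq] at h0
  obtain ⟨hg, hp, hq, hs0, hsf⟩ := h0
  have hg' : fldN C (8 * j) < P.dirs.length := Nat.le_of_ble_eq_true hg
  refine ⟨nth P.dirs (fldN C (8 * j)), nth_mem _ _ hg', fld C (8 * j + 1), fld C (8 * j + 2),
    fld C (8 * j + 3), fld C (8 * j + 4), fld C (8 * j + 5), by exact_mod_cast hp, ?_,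
    by exact_mod_cast hs0, ?_, ?_⟩
  · have : (P.c3 : ℝ) * ((fld C (8 * j + 4) : ℝ) * fld C (8 * j + 4)) ≤
        (fld C (8 * j + 3) : ℝ) * fld C (8 * j + 3) := by exact_mod_cast hq
    nlinarith [this]
  · intro hf
    have hf' : P.fs = 0 := by exact_mod_cast hf
    rw [hf'] at hsf
    have : fld C (8 * j + 5) = 0 := le_antisymm (by simpa using hsf) hs0
    exact_mod_cast this
  · rw [hA, hB]; exact hlt

theorem goodA1 {P : PA} (hD : 0 < P.D) (hwd : 0 < P.wd) (hwn : 0 < P.wn) {k : ℝ}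
    (h0 : (P.n0 : ℝ) ≤ k * P.D) (h1 : k * P.D ≤ P.n1) {x1 x2 : ℂ}
    (h : Hit (fa1 P) (fd1 P) (side1 P) x1.re x1.im x2.re x2.im) :
    GoodA P.dirs P.c3 P.fs (P.wn / P.wd) k x1 x2 := by
  obtain ⟨C, j, hs, ha, hd⟩ := h
  simp only [side1, Bool.and_eq_true, decide_eq_true_eq] at hs
  obtain ⟨hs0, hw⟩ := hs
  have hD' : (0 : ℝ) < P.D := by exact_mod_cast hD
  have hwd' : (0 : ℝ) < P.wd := by exact_mod_cast hwd
  have hwn' : (0 : ℝ) < P.wn := by exact_mod_cast hwn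
  have a0 := ha (pc1 P P.n0 6 C j) (by simp [fa1])
  have a1 := ha (pc1 P P.n1 6 C j) (by simp [fa1])
  have d0 := hd (pc2 P 7 C j) (by simp [fd1])
  have b0 := cz_le a0.1 a0.2
  have b1 := cz_le a1.1 a1.2
  have b2 := cz_lt d0.1 d0.2
  rw [cz_pc1] at b0 b1
  rw [cz_pc2] at b2
  have eR : (((pc1 P P.n0 6 C j).r : ℤ) : ℝ) = P.D * fld C (8 * j + 6) := by
    simp only [pc1]; push_cast; rfl
  have eR' : (((pc1 P P.n1 6 C j).r : ℤ) : ℝ) = P.D * fld C (8 * j + 6) := by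
    simp only [pc1]; push_cast; rfl
  rw [eR] at b0
  rw [eR'] at b1
  have key := piece_comb (convex_closedBall (0 : ℂ) (P.D * fld C (8 * j + 6))) h0 h1
    (by rw [mem_closedBall_zero_iff]; exact b0) (by rw [mem_closedBall_zero_iff]; exact b1)
  have hA := le_of_mul_norm hD' key
  have hB : ‖(⟨(fld C (8 * j + 1) : ℝ) + fld C (8 * j + 5), (fld C (8 * j + 2) : ℝ)⟩ : ℂ) * x2 -
      (vec (nth P.dirs (fldN C (8 * j)))).2‖ < fld C (8 * j + 7) := b2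
  refine goodA_of hs0 rfl rfl ?_
  have hw' : (P.wn : ℝ) * fld C (8 * j + 6) + P.wd * fld C (8 * j + 7) ≤
    P.wd * fld C (8 * j + 1) := by exact_mod_cast hw
  have hW : (P.wn / P.wd : ℝ) * fld C (8 * j + 6) + fld C (8 * j + 7) ≤ fld C (8 * j + 1) := by
    rw [div_mul_eq_mul_div, div_add' _ _ _ hwd'.ne', div_le_iff₀ hwd']
    linarith
  have hWA := mul_le_mul_of_nonneg_left hA (div_nonneg hwn'.le hwd'.le)
  refine lt_of_lt_of_le (add_lt_add_of_le_of_lt hWA hB) hW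

theorem goodA2 {P : PA} (hD : 0 < P.D) (hwd : 0 < P.wd) (hwn : 0 < P.wn) {k : ℝ}
    (h0 : (P.n0 : ℝ) ≤ k * P.D) (h1 : k * P.D ≤ P.n1) {x1 x2 : ℂ}
    (h : Hit (fa2 P) (fd2 P) (side2 P) x2.re x2.im x1.re x1.im) :
    GoodA P.dirs P.c3 P.fs (P.wn / P.wd) k x1 x2 := by
  obtain ⟨C, j, hs, ha, hd⟩ := h
  simp only [side2, Bool.and_eq_true, decide_eq_true_eq] at hs
  obtain ⟨hs0, hw⟩ := hs
  have hD' : (0 : ℝ) < P.D := by exact_mod_cast hD
  have hwd' : (0 : ℝ) < P.wd := by exact_mod_cast hwd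
  have hwn' : (0 : ℝ) < P.wn := by exact_mod_cast hwn
  have a0 := hd (pc1 P P.n0 7 C j) (by simp [fd2])
  have a1 := hd (pc1 P P.n1 7 C j) (by simp [fd2])
  have d0 := ha (pc2 P 6 C j) (by simp [fa2])
  have b0 := cz_lt a0.1 a0.2
  have b1 := cz_lt a1.1 a1.2
  have b2 := cz_le d0.1 d0.2
  rw [cz_pc1] at b0 b1
  rw [cz_pc2] at b2
  have eR : (((pc1 P P.n0 7 C j).r : ℤ) : ℝ) = P.D * fld C (8 * j + 7) := by
    simp only [pc1]; push_cast; rfl
  have eR' : (((pc1 P P.n1 7 C j).r : ℤ) : ℝ) = P.D * fld C (8 * j + 7) := by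
    simp only [pc1]; push_cast; rfl
  rw [eR] at b0
  rw [eR'] at b1
  have key := piece_comb (convex_ball (0 : ℂ) (P.D * fld C (8 * j + 7))) h0 h1
    (by rw [mem_ball_zero_iff]; exact b0) (by rw [mem_ball_zero_iff]; exact b1)
  have hA := lt_of_mul_norm hD' key
  have hB : ‖(⟨(fld C (8 * j + 1) : ℝ) + fld C (8 * j + 5), (fld C (8 * j + 2) : ℝ)⟩ : ℂ) * x2 -
      (vec (nth P.dirs (fldN C (8 * j)))).2‖ ≤ fld C (8 * j + 6) := b2
  refine goodA_of hs0 rfl rfl ?_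
  have hw' : (P.wd : ℝ) * fld C (8 * j + 6) + P.wn * fld C (8 * j + 7) ≤
    P.wd * fld C (8 * j + 1) := by exact_mod_cast hw
  have hW : (P.wn / P.wd : ℝ) * fld C (8 * j + 7) + fld C (8 * j + 6) ≤ fld C (8 * j + 1) := by
    rw [div_mul_eq_mul_div, div_add' _ _ _ hwd'.ne', div_le_iff₀ hwd']
    linarith
  have hWA := mul_lt_mul_of_pos_left hA (div_pos hwn' hwd')
  refine lt_of_lt_of_le (add_lt_add_of_lt_of_le hWA hB) hW

/-- the statement is invariant under the multiplication by `i` -/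
theorem unrotA {dirs : List (ℤ × ℤ × ℤ × ℤ)} (hD : ∀ d ∈ dirs, rot d ∈ dirs)
    {c3 fs W k : ℝ} {x1 x2 : ℂ} (h : GoodA dirs c3 fs W k (-I * x1) (-I * x2)) :
    GoodA dirs c3 fs W k x1 x2 := by
  obtain ⟨d, hd, l, w, p, q, s, hp, hq, hs, hf, h⟩ := h
  refine ⟨rot d, hD d hd, l, w, p, q, s, hp, hq, hs, hf, ?_⟩
  rw [vec_rot]
  have e : ∀ m x u : ℂ, ‖m * x - I * u‖ = ‖m * (-I * x) - u‖ := by
    intro m x u
    have : m * x - I * u = I * (m * (-I * x) - u) := by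
      linear_combination (m * x) * I_mul_I
    rw [this, norm_mul, norm_I, one_mul]
  simpa only [e] using h

theorem scaleA {dirs : List (ℤ × ℤ × ℤ × ℤ)} {c3 fs W k : ℝ} (hW : 0 ≤ W) {x1 x2 : ℂ} {t : ℝ}
    (ht : 0 < t) (ht1 : t ≤ 1) (h : GoodA dirs c3 fs W k (x1 / t) (x2 / t)) :
    GoodA dirs c3 fs W k x1 x2 := by
  obtain ⟨d, hd, l, w, p, q, s, hp, hq, hs, hf, h⟩ := h
  have ht' : (t : ℂ) ≠ 0 := by exact_mod_cast ht.ne'
  refine ⟨d, hd, l / t, w / t, p / t, q / t, s / t, div_nonneg hp ht.le, ?_, div_nonneg hs ht.le,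
    fun h0 => by rw [hf h0, zero_div], ?_⟩
  · rw [div_pow, div_pow, ← mul_div_assoc]
    exact div_le_div_of_nonneg_right hq (by positivity)
  · have e1 : (⟨l / t + p / t, k * (w / t) + q / t⟩ : ℂ) = (⟨l + p, k * w + q⟩ : ℂ) / t := by
      apply Complex.ext
      · rw [Complex.div_ofReal_re]; ring
      · rw [Complex.div_ofReal_im]; ring
    have e2 : (⟨l / t + s / t, w / t⟩ : ℂ) = (⟨l + s, w⟩ : ℂ) / t := by
      apply Complex.ext
      · rw [Complex.div_ofReal_re]; ring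
      · rw [Complex.div_ofReal_im]
    have e3 : ∀ m x : ℂ, m / t * x = m * (x / t) := by intro m x; ring
    rw [e1, e2, e3, e3]
    have hl : 0 ≤ l := le_trans (by positivity) h.le
    refine lt_of_lt_of_le h ?_
    rw [le_div_iff₀ ht]
    nlinarith

theorem zeroA {dirs : List (ℤ × ℤ × ℤ × ℤ)} (hne : dirs ≠ []) {c3 fs W k : ℝ} :
    GoodA dirs c3 fs W k 0 0 := by
  obtain ⟨d, hd⟩ := List.exists_mem_of_ne_nil dirs hne
  refine ⟨d, hd, W * ‖(vec d).1‖ + ‖(vec d).2‖ + 1, 0, 0, 0, 0, le_rfl, by simp, le_rfl,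
    fun _ => rfl, ?_⟩
  simp

theorem ptA_0 : ptA 0 = 4096 := by
  have e1 : ptX 0 = 8192 := rfl
  have e2 : ptV 0 = 4096 := rfl
  unfold ptA; rw [e1, e2]; norm_num

theorem ptB_0 : ptB 0 = 0 := by
  have e1 : ptY 0 = 4096 := rfl
  have e2 : ptV 0 = 4096 := rfl
  unfold ptB; rw [e1, e2]; norm_num

theorem ptA_64 : ptA 64 = 0 := by
  have e1 : ptX 64 = 8192 := rfl
  have e2 : ptV 64 = 8192 := rfl
  unfold ptA; rw [e1, e2]; norm_num

theorem ptB_64 : ptB 64 = 8192 := by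
  have e1 : ptY 64 = 16384 := rfl
  have e2 : ptV 64 = 8192 := rfl
  unfold ptB; rw [e1, e2]; norm_num

theorem ptA_128 : ptA 128 = -8192 := by
  have e1 : ptX 128 = 0 := rfl
  have e2 : ptV 128 = 8192 := rfl
  unfold ptA; rw [e1, e2]; norm_num

theorem ptB_128 : ptB 128 = 0 := by
  have e1 : ptY 128 = 8192 := rfl
  have e2 : ptV 128 = 8192 := rfl
  unfold ptB; rw [e1, e2]; norm_num

/-- the arcs of the first quadrant -/
theorem quadrant {fa fd : ℕ → ℕ → List Pc} {side : ℕ → ℕ → Bool} {l : List ArcD}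
    (hne : l ≠ []) (hl : allArc l (arcOK fa fd side 0) = true) (hch : chainOK 64 0 l = true)
    {z w : ℂ} (h1 : ‖z‖ = 1) (hre : 0 ≤ z.re) (him : 0 ≤ z.im) (h2 : ‖w‖ ≤ 1) :
    Hit fa fd side z.re z.im w.re w.im := by
  have hn1 : z.re ^ 2 + z.im ^ 2 = 1 := by
    have := Complex.sq_norm z
    rw [h1, Complex.normSq_apply] at this
    nlinarith
  have hn2 : w.re ^ 2 + w.im ^ 2 ≤ 1 := by
    have := Complex.sq_norm w
    rw [Complex.normSq_apply] at this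
    have h3 : ‖w‖ ^ 2 ≤ 1 := by nlinarith [norm_nonneg w]
    nlinarith
  have hw : |w.im| ≤ 1 := (Complex.abs_im_le_norm w).trans h2
  rw [abs_le] at hw
  refine chain_hit hn1 ?_ hn2 (by push_cast; linarith) l 0 hne hl hch ?_
  · rw [ptB_64, ptA_64]; nlinarith
  · rw [ptB_0, ptA_0]; nlinarith

/-- reduction to the first quadrant -/
theorem to_quadrant {G : ℂ → ℂ → Prop} (hrot : ∀ x1 x2, G (-I * x1) (-I * x2) → G x1 x2)
    {f : ℂ → ℂ → ℂ} (hf : ∀ x1 x2, f (-I * x1) (-I * x2) = -I * f x1 x2)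
    (h : ∀ x1 x2 : ℂ, ‖x1‖ ≤ 1 → ‖x2‖ ≤ 1 → ‖f x1 x2‖ = 1 → 0 ≤ (f x1 x2).re →
      0 ≤ (f x1 x2).im → G x1 x2) (x1 x2 : ℂ) (h1 : ‖x1‖ ≤ 1) (h2 : ‖x2‖ ≤ 1)
    (hn : ‖f x1 x2‖ = 1) : G x1 x2 := by
  have n1 : ∀ z : ℂ, ‖-I * z‖ = ‖z‖ := by intro z; rw [norm_mul, norm_neg, norm_I, one_mul]
  have r1 : ∀ z : ℂ, (-I * z).re = z.im := by intro z; simp
  have r2 : ∀ z : ℂ, (-I * z).im = -z.re := by intro z; simp
  rcases le_total 0 (f x1 x2).re with hr | hr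
  · rcases le_total 0 (f x1 x2).im with hi | hi
    · exact h x1 x2 h1 h2 hn hr hi
    · refine hrot _ _ (hrot _ _ (hrot _ _ (h _ _ ?_ ?_ ?_ ?_ ?_)))
      · simpa only [n1] using h1
      · simpa only [n1] using h2
      · simpa only [hf, n1] using hn
      · simp only [hf, r1, r2]; linarith
      · simp only [hf, r1, r2]; linarith
  · rcases le_total 0 (f x1 x2).im with hi | hi
    · refine hrot _ _ (h _ _ ?_ ?_ ?_ ?_ ?_)
      · simpa only [n1] using h1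
      · simpa only [n1] using h2
      · simpa only [hf, n1] using hn
      · simp only [hf, r1]; linarith
      · simp only [hf, r2]; linarith
    · refine hrot _ _ (hrot _ _ (h _ _ ?_ ?_ ?_ ?_ ?_))
      · simpa only [n1] using h1
      · simpa only [n1] using h2
      · simpa only [hf, n1] using hn
      · simp only [hf, r1, r2]; linarith
      · simp only [hf, r1, r2]; linarith

/-- scaling to the faces of the bidisc -/
theorem to_faces {G : ℂ → ℂ → Prop} (h0 : G 0 0)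
    (hsc : ∀ (x1 x2 : ℂ) (t : ℝ), 0 < t → t ≤ 1 → G (x1 / t) (x2 / t) → G x1 x2)
    (hf1 : ∀ x1 x2 : ℂ, ‖x1‖ = 1 → ‖x2‖ ≤ 1 → G x1 x2)
    (hf2 : ∀ x1 x2 : ℂ, ‖x1‖ ≤ 1 → ‖x2‖ = 1 → G x1 x2) (x1 x2 : ℂ) (h1 : ‖x1‖ ≤ 1)
    (h2 : ‖x2‖ ≤ 1) : G x1 x2 := by
  rcases le_total ‖x2‖ ‖x1‖ with h12 | h12
  · rcases (norm_nonneg x1).eq_or_lt with hz | hz
    · have z1 : x1 = 0 := norm_eq_zero.1 hz.symm
      have z2 : x2 = 0 := norm_eq_zero.1 (le_antisymm (by rw [hz]; exact h12) (norm_nonneg _))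
      subst z1 z2
      exact h0
    · refine hsc x1 x2 ‖x1‖ hz h1 (hf1 _ _ ?_ ?_)
      · rw [norm_div, Complex.norm_real, norm_norm, div_self hz.ne']
      · rw [norm_div, Complex.norm_real, norm_norm]
        exact (div_le_one hz).2 h12
  · rcases (norm_nonneg x2).eq_or_lt with hz | hz
    · have z2 : x2 = 0 := norm_eq_zero.1 hz.symm
      have z1 : x1 = 0 := norm_eq_zero.1 (le_antisymm (by rw [hz]; exact h12) (norm_nonneg _))
      subst z1 z2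
      exact h0
    · refine hsc x1 x2 ‖x2‖ hz h2 (hf2 _ _ ?_ ?_)
      · rw [norm_div, Complex.norm_real, norm_norm]
        exact (div_le_one hz).2 h12
      · rw [norm_div, Complex.norm_real, norm_norm, div_self hz.ne']

/-- the cheap part of the check of a cell -/
def cellOK (P : PA) (l1 l2 : List ArcD) : Bool :=
  and (decide (0 < P.D)) (and (decide (0 < P.wd)) (and (decide (0 < P.wn))
    (and (decide (P.dirs ≠ [])) (and (decide (∀ d ∈ P.dirs, rot d ∈ P.dirs))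
      (and (and (!l1.isEmpty) (!l2.isEmpty)) (and (chainOK 64 0 l1) (chainOK 64 0 l2)))))))

/-- **the covering of a cell** -/
theorem cellA {P : PA} {l1 l2 : List ArcD} (hc : cellOK P l1 l2 = true)
    (h1 : allArc l1 (arcOK (fa1 P) (fd1 P) (side1 P) 0) = true)
    (h2 : allArc l2 (arcOK (fa2 P) (fd2 P) (side2 P) 0) = true) {k : ℝ}
    (hk0 : (P.n0 : ℝ) ≤ k * P.D) (hk1 : k * P.D ≤ P.n1) (x1 x2 : ℂ) (hx1 : ‖x1‖ ≤ 1)
    (hx2 : ‖x2‖ ≤ 1) : GoodA P.dirs P.c3 P.fs (P.wn / P.wd) k x1 x2 := by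
  simp only [cellOK, Bool.and_eq_true, decide_eq_true_eq, Bool.not_eq_true',
    List.isEmpty_eq_false_iff] at hc
  obtain ⟨hD, hwd, hwn, hne, hrot, ⟨hn1, hn2⟩, hc1, hc2⟩ := hc
  have hW : (0 : ℝ) ≤ (P.wn / P.wd : ℝ) := by
    have h3 : (0 : ℝ) ≤ P.wn := by exact_mod_cast hwn.le
    have h4 : (0 : ℝ) ≤ P.wd := by exact_mod_cast hwd.le
    exact div_nonneg h3 h4
  refine to_faces (G := fun x1 x2 => GoodA P.dirs P.c3 P.fs (P.wn / P.wd) k x1 x2) (zeroA hne)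
    (fun x1 x2 t ht ht1 h => scaleA hW ht ht1 h) ?_ ?_ x1 x2 hx1 hx2
  · intro x1 x2 hx1 hx2
    refine to_quadrant (G := fun x1 x2 => GoodA P.dirs P.c3 P.fs (P.wn / P.wd) k x1 x2)
      (f := fun x1 _ => x1) (fun x1 x2 h => unrotA hrot h) (fun _ _ => rfl) ?_
      x1 x2 hx1.le hx2 hx1
    intro x1 x2 _ hx2 hx1 hre him
    exact goodA1 hD hwd hwn hk0 hk1 (quadrant hn1 h1 hc1 hx1 hre him hx2)
  · intro x1 x2 hx1 hx2
    refine to_quadrant (G := fun x1 x2 => GoodA P.dirs P.c3 P.fs (P.wn / P.wd) k x1 x2)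
      (f := fun _ x2 => x2) (fun x1 x2 h => unrotA hrot h) (fun _ _ => rfl) ?_
      x1 x2 hx1 hx2.le hx2
    intro x1 x2 hx1 _ hx2 hre him
    exact goodA2 hD hwd hwn hk0 hk1 (quadrant hn2 h2 hc2 hx2 hre him hx1)

end Pool.Agent.Zk84.M3
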