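import Pool.Agent.Zk84.M3.Fam

/-!
The certificates for the circle group with the weights `(1/2, 1)`.

The fields of a certificate are `g`, `l`, `w`, `b1`, `p1`, `q1`, `b2`, `p2`, `q2`, `a`, `zp`, `zq`,
`A`, `B`: the number of the direction, the real numbers `l` and `w`, the coefficients `b1`, `b2` with
the points `(p + i q) / 5` of the unit circle, the coefficient `a` with the point `(zp + i zq) / 512`
of the unit disc, and the bounds for the two coordinates.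
-/

set_option autoImplicit false

namespace Pool.Agent.Zk84.M3

open Complex
open Pool.Agent.Zk84.HC (vec)

/-- the real part of `5 ∑ b (1 - e)` -/
def m1 (C j : ℕ) : ℤ :=
  fld C (14 * j + 3) * (5 - fld C (14 * j + 4)) + fld C (14 * j + 6) * (5 - fld C (14 * j + 7))

/-- the imaginary part of `-5 ∑ b (1 - e)` -/
def n1 (C j : ℕ) : ℤ :=
  fld C (14 * j + 3) * fld C (14 * j + 5) + fld C (14 * j + 6) * fld C (14 * j + 8)

/-- the real part of `25 ∑ b (1 - e ^ 2)`; note that `p ^ 2 + q ^ 2 = 25` -/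
def m2 (C j : ℕ) : ℤ :=
  2 * (fld C (14 * j + 3) * (fld C (14 * j + 5) * fld C (14 * j + 5)) +
    fld C (14 * j + 6) * (fld C (14 * j + 8) * fld C (14 * j + 8)))

/-- the imaginary part of `-25 ∑ b (1 - e ^ 2)` -/
def n2 (C j : ℕ) : ℤ :=
  2 * (fld C (14 * j + 3) * (fld C (14 * j + 4) * fld C (14 * j + 5)) +
    fld C (14 * j + 6) * (fld C (14 * j + 7) * fld C (14 * j + 8)))

/-- the piece for the first coordinate, with the factor `2560` -/
def pcx (P : PA) (R C j : ℕ) : Pc :=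
  ⟨2560 * fld C (14 * j + 1) + 512 * m1 C j, 1280 * fld C (14 * j + 2) - 512 * n1 C j,
    5 * (fld C (14 * j + 9) * fld C (14 * j + 10)) + 2560 * (nth P.dirs (fldN C (14 * j))).1,
    5 * (fld C (14 * j + 9) * fld C (14 * j + 11)) + 2560 * (nth P.dirs (fldN C (14 * j))).2.1,
    2560 * fld C (14 * j + R)⟩

/-- the piece for the second coordinate, with the factor `25 * 512 ^ 2 * D` -/
def pcy (P : PA) (n : ℤ) (R C j : ℕ) : Pc :=
  ⟨6553600 * P.D * fld C (14 * j + 1) + 262144 * P.D * m2 C j,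
    6553600 * P.D * fld C (14 * j + 2) - 262144 * P.D * n2 C j,
    25 * n * (fld C (14 * j + 9) * (fld C (14 * j + 10) * fld C (14 * j + 10) -
      fld C (14 * j + 11) * fld C (14 * j + 11))) +
      6553600 * P.D * (nth P.dirs (fldN C (14 * j))).2.2.1,
    25 * n * (fld C (14 * j + 9) * (2 * (fld C (14 * j + 10) * fld C (14 * j + 11)))) +
      6553600 * P.D * (nth P.dirs (fldN C (14 * j))).2.2.2,
    6553600 * P.D * fld C (14 * j + R)⟩

/-- the pieces on the arc, the first face -/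
def ga1 (P : PA) (C j : ℕ) : List Pc := [pcx P 12 C j]

/-- the pieces on the disc, the first face -/
def gd1 (P : PA) (C j : ℕ) : List Pc := [pcy P P.n0 13 C j, pcy P P.n1 13 C j]

/-- the pieces on the arc, the second face -/
def ga2 (P : PA) (C j : ℕ) : List Pc := [pcy P P.n0 12 C j, pcy P P.n1 12 C j]

/-- the pieces on the disc, the second face -/
def gd2 (P : PA) (C j : ℕ) : List Pc := [pcx P 13 C j]

/-- the common side conditions -/
def sidc0 (P : PA) (C j : ℕ) : Bool :=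
  and (Nat.blt (fldN C (14 * j)) P.dirs.length) (and (decide (0 ≤ fld C (14 * j + 3)))
    (and (decide (0 ≤ fld C (14 * j + 6))) (and (decide (0 ≤ fld C (14 * j + 9)))
      (and (decide (fld C (14 * j + 4) * fld C (14 * j + 4) +
          fld C (14 * j + 5) * fld C (14 * j + 5) = 25))
        (and (decide (fld C (14 * j + 7) * fld C (14 * j + 7) +
            fld C (14 * j + 8) * fld C (14 * j + 8) = 25))
          (decide (fld C (14 * j + 10) * fld C (14 * j + 10) +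
            fld C (14 * j + 11) * fld C (14 * j + 11) ≤ 262144)))))))

/-- the side conditions, the first face -/
def sidc1 (P : PA) (C j : ℕ) : Bool :=
  and (sidc0 P C j) (decide (P.wn * fld C (14 * j + 12) + P.wd * fld C (14 * j + 13) ≤
    P.wd * (fld C (14 * j + 1) - fld C (14 * j + 9))))

/-- the side conditions, the second face -/
def sidc2 (P : PA) (C j : ℕ) : Bool :=
  and (sidc0 P C j) (decide (P.wd * fld C (14 * j + 12) + P.wn * fld C (14 * j + 13) ≤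
    P.wd * (fld C (14 * j + 1) - fld C (14 * j + 9))))

/-- a point is illuminated by one of the directions -/
def GoodC (dirs : List (ℤ × ℤ × ℤ × ℤ)) (W r : ℝ) (x1 x2 : ℂ) : Prop :=
  ∃ d ∈ dirs, ∃ l w b1 b2 a : ℝ, ∃ e1 e2 z : ℂ,
    0 ≤ b1 ∧ 0 ≤ b2 ∧ 0 ≤ a ∧ ‖e1‖ = 1 ∧ ‖e2‖ = 1 ∧ ‖z‖ ≤ 1 ∧
    W * ‖((⟨l, w / 2⟩ : ℂ) + b1 * (1 - e1) + b2 * (1 - e2)) * x1 - a * z - (vec d).1‖ +
      ‖((⟨l, w⟩ : ℂ) + b1 * (1 - e1 ^ 2) + b2 * (1 - e2 ^ 2)) * x2 - r * a * z ^ 2 -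
        (vec d).2‖ + a < l

/-- a point of the unit circle -/
noncomputable def pe (p q : ℤ) : ℂ := ⟨(p : ℝ) / 5, (q : ℝ) / 5⟩

/-- a point of the unit disc -/
noncomputable def pz (p q : ℤ) : ℂ := ⟨(p : ℝ) / 512, (q : ℝ) / 512⟩

theorem pe_norm {p q : ℤ} (h : p * p + q * q = 25) : ‖pe p q‖ = 1 := by
  have h' : (p : ℝ) * p + q * q = 25 := by exact_mod_cast h
  have : ‖pe p q‖ ^ 2 = 1 := by
    rw [Complex.sq_norm, Complex.normSq_apply]
    simp only [pe]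
    nlinarith
  nlinarith [norm_nonneg (pe p q)]

theorem pz_norm {p q : ℤ} (h : p * p + q * q ≤ 262144) : ‖pz p q‖ ≤ 1 := by
  have h' : (p : ℝ) * p + q * q ≤ 262144 := by exact_mod_cast h
  have : ‖pz p q‖ ^ 2 ≤ 1 := by
    rw [Complex.sq_norm, Complex.normSq_apply]
    simp only [pz]
    nlinarith
  nlinarith [norm_nonneg (pz p q)]

/-- the value of the first coordinate -/
noncomputable def vx (P : PA) (C j : ℕ) (x : ℂ) : ℂ :=
  ((⟨fld C (14 * j + 1), (fld C (14 * j + 2) : ℝ) / 2⟩ : ℂ) +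
    ((fld C (14 * j + 3) : ℝ) : ℂ) * (1 - pe (fld C (14 * j + 4)) (fld C (14 * j + 5))) +
    ((fld C (14 * j + 6) : ℝ) : ℂ) * (1 - pe (fld C (14 * j + 7)) (fld C (14 * j + 8)))) * x -
    ((fld C (14 * j + 9) : ℝ) : ℂ) * pz (fld C (14 * j + 10)) (fld C (14 * j + 11)) -
    (vec (nth P.dirs (fldN C (14 * j)))).1

/-- the value of the second coordinate -/
noncomputable def vy (P : PA) (r : ℝ) (C j : ℕ) (x : ℂ) : ℂ :=
  ((⟨fld C (14 * j + 1), fld C (14 * j + 2)⟩ : ℂ) +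
    ((fld C (14 * j + 3) : ℝ) : ℂ) * (1 - pe (fld C (14 * j + 4)) (fld C (14 * j + 5)) ^ 2) +
    ((fld C (14 * j + 6) : ℝ) : ℂ) * (1 - pe (fld C (14 * j + 7)) (fld C (14 * j + 8)) ^ 2)) * x -
    (r : ℂ) * ((fld C (14 * j + 9) : ℝ) : ℂ) *
      pz (fld C (14 * j + 10)) (fld C (14 * j + 11)) ^ 2 -
    (vec (nth P.dirs (fldN C (14 * j)))).2

theorem alg_x (l w b1 p1 q1 b2 p2 q2 a zp zq u v : ℝ) (x : ℂ) :
    (⟨2560 * l + 512 * (b1 * (5 - p1) + b2 * (5 - p2)),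
      1280 * w - 512 * (b1 * q1 + b2 * q2)⟩ : ℂ) * x -
      ⟨5 * (a * zp) + 2560 * u, 5 * (a * zq) + 2560 * v⟩ =
    ((2560 : ℝ) : ℂ) * (((⟨l, w / 2⟩ : ℂ) + (b1 : ℂ) * (1 - ⟨p1 / 5, q1 / 5⟩) +
      (b2 : ℂ) * (1 - ⟨p2 / 5, q2 / 5⟩)) * x - (a : ℂ) * ⟨zp / 512, zq / 512⟩ - ⟨u, v⟩) := by
  apply Complex.ext
  · simp only [Complex.mul_re, Complex.sub_re, Complex.add_re, Complex.ofReal_re,
      Complex.ofReal_im, Complex.mul_im, Complex.sub_im, Complex.add_im, Complex.one_re,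
      Complex.one_im]
    ring
  · simp only [Complex.mul_re, Complex.sub_re, Complex.add_re, Complex.ofReal_re,
      Complex.ofReal_im, Complex.mul_im, Complex.sub_im, Complex.add_im, Complex.one_re,
      Complex.one_im]
    ring

theorem alg_y (D r l w b1 p1 q1 b2 p2 q2 a zp zq u v : ℝ) (x : ℂ)
    (h1 : p1 * p1 + q1 * q1 = 25) (h2 : p2 * p2 + q2 * q2 = 25) :
    (⟨6553600 * D * l + 262144 * D * (2 * (b1 * (q1 * q1) + b2 * (q2 * q2))),
      6553600 * D * w - 262144 * D * (2 * (b1 * (p1 * q1) + b2 * (p2 * q2)))⟩ : ℂ) * x -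
      ⟨25 * (r * D) * (a * (zp * zp - zq * zq)) + 6553600 * D * u,
        25 * (r * D) * (a * (2 * (zp * zq))) + 6553600 * D * v⟩ =
    ((6553600 * D : ℝ) : ℂ) * (((⟨l, w⟩ : ℂ) + (b1 : ℂ) * (1 - (⟨p1 / 5, q1 / 5⟩ : ℂ) ^ 2) +
      (b2 : ℂ) * (1 - (⟨p2 / 5, q2 / 5⟩ : ℂ) ^ 2)) * x -
      (r : ℂ) * (a : ℂ) * (⟨zp / 512, zq / 512⟩ : ℂ) ^ 2 - ⟨u, v⟩) := by
  have k1 : p1 * p1 = 25 - q1 * q1 := by linarith
  have k2 : p2 * p2 = 25 - q2 * q2 := by linarith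
  apply Complex.ext
  · simp only [Complex.mul_re, Complex.sub_re, Complex.add_re, Complex.ofReal_re,
      Complex.ofReal_im, Complex.mul_im, Complex.sub_im, Complex.add_im, Complex.one_re,
      Complex.one_im, pow_two]
    linear_combination (262144 * D * b1 * x.re) * k1 + (262144 * D * b2 * x.re) * k2
  · simp only [Complex.mul_re, Complex.sub_re, Complex.add_re, Complex.ofReal_re,
      Complex.ofReal_im, Complex.mul_im, Complex.sub_im, Complex.add_im, Complex.one_re,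
      Complex.one_im, pow_two]
    linear_combination (262144 * D * b1 * x.im) * k1 + (262144 * D * b2 * x.im) * k2

theorem cz_pcx (P : PA) (R C j : ℕ) (x : ℂ) :
    cz (pcx P R C j) x = ((2560 : ℝ) : ℂ) * vx P C j x := by
  simp only [cz, pcx, vx, vec, pe, pz, m1, n1]
  rw [← alg_x]
  push_cast
  rfl

/-- the value of the piece for the second coordinate, with a real number `r` -/
noncomputable def vyD (P : PA) (r : ℝ) (C j : ℕ) (x : ℂ) : ℂ :=
  (⟨6553600 * (P.D : ℝ) * fld C (14 * j + 1) + 262144 * (P.D : ℝ) *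
      (2 * ((fld C (14 * j + 3) : ℝ) * ((fld C (14 * j + 5) : ℝ) * fld C (14 * j + 5)) +
        (fld C (14 * j + 6) : ℝ) * ((fld C (14 * j + 8) : ℝ) * fld C (14 * j + 8)))),
    6553600 * (P.D : ℝ) * fld C (14 * j + 2) - 262144 * (P.D : ℝ) *
      (2 * ((fld C (14 * j + 3) : ℝ) * ((fld C (14 * j + 4) : ℝ) * fld C (14 * j + 5)) +
        (fld C (14 * j + 6) : ℝ) * ((fld C (14 * j + 7) : ℝ) * fld C (14 * j + 8))))⟩ : ℂ) * x -
  ⟨25 * (r * P.D) * ((fld C (14 * j + 9) : ℝ) * ((fld C (14 * j + 10) : ℝ) *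
      fld C (14 * j + 10) - (fld C (14 * j + 11) : ℝ) * fld C (14 * j + 11))) +
      6553600 * (P.D : ℝ) * (nth P.dirs (fldN C (14 * j))).2.2.1,
    25 * (r * P.D) * ((fld C (14 * j + 9) : ℝ) * (2 * ((fld C (14 * j + 10) : ℝ) *
      fld C (14 * j + 11)))) + 6553600 * (P.D : ℝ) * (nth P.dirs (fldN C (14 * j))).2.2.2⟩

theorem cz_pcy (P : PA) (n : ℤ) (R C j : ℕ) (x : ℂ) {r : ℝ} (hr : r * P.D = n) :
    cz (pcy P n R C j) x = vyD P r C j x := by
  simp only [cz, pcy, vyD, m2, n2]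
  rw [hr]
  push_cast
  rfl

theorem vyD_eq (P : PA) (r : ℝ) (C j : ℕ) (x : ℂ)
    (h1 : fld C (14 * j + 4) * fld C (14 * j + 4) + fld C (14 * j + 5) * fld C (14 * j + 5) = 25)
    (h2 : fld C (14 * j + 7) * fld C (14 * j + 7) + fld C (14 * j + 8) * fld C (14 * j + 8) = 25) :
    vyD P r C j x = ((6553600 * (P.D : ℝ) : ℝ) : ℂ) * vy P r C j x := by
  have h1' : (fld C (14 * j + 4) : ℝ) * fld C (14 * j + 4) +
    (fld C (14 * j + 5) : ℝ) * fld C (14 * j + 5) = 25 := by exact_mod_cast h1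
  have h2' : (fld C (14 * j + 7) : ℝ) * fld C (14 * j + 7) +
    (fld C (14 * j + 8) : ℝ) * fld C (14 * j + 8) = 25 := by exact_mod_cast h2
  simp only [vyD, vy, vec, pe, pz]
  exact alg_y _ _ _ _ _ _ _ _ _ _ _ _ _ _ _ _ h1' h2'

/-- convex combination in `r` -/
theorem vyD_comb {s : Set ℂ} (hs : Convex ℝ s) {P : PA} {r n0 n1 D : ℝ} (hD : (P.D : ℝ) = D)
    (hD0 : 0 < D) {C j : ℕ} {x : ℂ} (h0 : n0 ≤ r * D) (h1 : r * D ≤ n1)
    (hn0 : vyD P (n0 / D) C j x ∈ s) (hn1 : vyD P (n1 / D) C j x ∈ s) : vyD P r C j x ∈ s := by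
  obtain ⟨t, ht, ht', e⟩ := exists_par h0 h1
  have h := hs hn0 hn1 (sub_nonneg.2 ht') ht (by ring : 1 - t + t = 1)
  have e0 : n0 / D * D = n0 := div_mul_cancel₀ _ hD0.ne'
  have e1 : n1 / D * D = n1 := div_mul_cancel₀ _ hD0.ne'
  have e2 : vyD P r C j x = (1 - t) • vyD P (n0 / D) C j x + t • vyD P (n1 / D) C j x := by
    simp only [vyD, hD, e0, e1]
    apply Complex.ext
    · simp only [Complex.mul_re, Complex.sub_re, Complex.add_re, Complex.real_smul,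
        Complex.ofReal_re, Complex.ofReal_im, Complex.mul_im, Complex.sub_im]
      linear_combination (-25 * ((fld C (14 * j + 9) : ℝ) * ((fld C (14 * j + 10) : ℝ) *
        fld C (14 * j + 10) - (fld C (14 * j + 11) : ℝ) * fld C (14 * j + 11)))) * e
    · simp only [Complex.mul_re, Complex.sub_re, Complex.add_im, Complex.real_smul,
        Complex.ofReal_re, Complex.ofReal_im, Complex.mul_im, Complex.sub_im]
      linear_combination (-25 * ((fld C (14 * j + 9) : ℝ) * (2 * ((fld C (14 * j + 10) : ℝ) *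
        fld C (14 * j + 11))))) * e
  rw [e2]
  exact h

theorem goodC_of {P : PA} {r : ℝ} {x1 x2 : ℂ} {C j : ℕ} (h0 : sidc0 P C j = true) {W : ℝ}
    (hlt : W * ‖vx P C j x1‖ + ‖vy P r C j x2‖ + fld C (14 * j + 9) < fld C (14 * j + 1)) :
    GoodC P.dirs W r x1 x2 := by
  simp only [sidc0, Bool.and_eq_true, decide_eq_true_eq] at h0
  obtain ⟨hg, hb1, hb2, ha, he1, he2, hz⟩ := h0
  have hg' : fldN C (14 * j) < P.dirs.length := Nat.le_of_ble_eq_true hg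
  exact ⟨nth P.dirs (fldN C (14 * j)), nth_mem _ _ hg', fld C (14 * j + 1), fld C (14 * j + 2),
    fld C (14 * j + 3), fld C (14 * j + 6), fld C (14 * j + 9),
    pe (fld C (14 * j + 4)) (fld C (14 * j + 5)), pe (fld C (14 * j + 7)) (fld C (14 * j + 8)),
    pz (fld C (14 * j + 10)) (fld C (14 * j + 11)), by exact_mod_cast hb1, by exact_mod_cast hb2,
    by exact_mod_cast ha, pe_norm he1, pe_norm he2, pz_norm hz, hlt⟩

theorem goodC1 {P : PA} (hD : 0 < P.D) (hwd : 0 < P.wd) (hwn : 0 < P.wn) {r : ℝ}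
    (h0 : (P.n0 : ℝ) ≤ r * P.D) (h1 : r * P.D ≤ P.n1) {x1 x2 : ℂ}
    (h : Hit (ga1 P) (gd1 P) (sidc1 P) x1.re x1.im x2.re x2.im) :
    GoodC P.dirs (P.wn / P.wd) r x1 x2 := by
  obtain ⟨C, j, hs, ha, hd⟩ := h
  simp only [sidc1, Bool.and_eq_true, decide_eq_true_eq] at hs
  obtain ⟨hs0, hw⟩ := hs
  have hs0' := hs0
  simp only [sidc0, Bool.and_eq_true, decide_eq_true_eq] at hs0'
  obtain ⟨-, -, -, -, he1, he2, -⟩ := hs0'
  have hD' : (0 : ℝ) < P.D := by exact_mod_cast hD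
  have hwd' : (0 : ℝ) < P.wd := by exact_mod_cast hwd
  have hwn' : (0 : ℝ) < P.wn := by exact_mod_cast hwn
  have a0 := ha (pcx P 12 C j) (by simp [ga1])
  have d0 := hd (pcy P P.n0 13 C j) (by simp [gd1])
  have d1 := hd (pcy P P.n1 13 C j) (by simp [gd1])
  have b0 := cz_le a0.1 a0.2
  have b1 := cz_lt d0.1 d0.2
  have b2 := cz_lt d1.1 d1.2
  rw [cz_pcx] at b0
  rw [cz_pcy P P.n0 13 C j x2 (div_mul_cancel₀ _ hD'.ne')] at b1
  rw [cz_pcy P P.n1 13 C j x2 (div_mul_cancel₀ _ hD'.ne')] at b2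
  have eR : (((pcx P 12 C j).r : ℤ) : ℝ) = 2560 * fld C (14 * j + 12) := by
    simp only [pcx]; push_cast; rfl
  have eR0 : (((pcy P P.n0 13 C j).r : ℤ) : ℝ) = 6553600 * (P.D : ℝ) * fld C (14 * j + 13) := by
    simp only [pcy]; push_cast; rfl
  have eR1 : (((pcy P P.n1 13 C j).r : ℤ) : ℝ) = 6553600 * (P.D : ℝ) * fld C (14 * j + 13) := by
    simp only [pcy]; push_cast; rfl
  rw [eR] at b0
  rw [eR0] at b1
  rw [eR1] at b2
  have key := vyD_comb (convex_ball (0 : ℂ) (6553600 * (P.D : ℝ) * fld C (14 * j + 13))) rfl hD'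
    h0 h1 (by rw [mem_ball_zero_iff]; exact b1) (by rw [mem_ball_zero_iff]; exact b2)
  rw [vyD_eq P r C j x2 he1 he2] at key
  have hB := lt_of_mul_norm (by positivity) key
  have hA := le_of_mul_norm (D := 2560) (by norm_num)
    (by rw [mem_closedBall_zero_iff]; exact b0)
  refine goodC_of hs0 ?_
  have hw' : (P.wn : ℝ) * fld C (14 * j + 12) + P.wd * fld C (14 * j + 13) ≤
    P.wd * (fld C (14 * j + 1) - fld C (14 * j + 9)) := by exact_mod_cast hw
  have hW : (P.wn / P.wd : ℝ) * fld C (14 * j + 12) + fld C (14 * j + 13) ≤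
      fld C (14 * j + 1) - fld C (14 * j + 9) := by
    rw [div_mul_eq_mul_div, div_add' _ _ _ hwd'.ne', div_le_iff₀ hwd']
    linarith
  have hWA := mul_le_mul_of_nonneg_left hA (div_nonneg hwn'.le hwd'.le)
  linarith

theorem goodC2 {P : PA} (hD : 0 < P.D) (hwd : 0 < P.wd) (hwn : 0 < P.wn) {r : ℝ}
    (h0 : (P.n0 : ℝ) ≤ r * P.D) (h1 : r * P.D ≤ P.n1) {x1 x2 : ℂ}
    (h : Hit (ga2 P) (gd2 P) (sidc2 P) x2.re x2.im x1.re x1.im) :
    GoodC P.dirs (P.wn / P.wd) r x1 x2 := by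
  obtain ⟨C, j, hs, ha, hd⟩ := h
  simp only [sidc2, Bool.and_eq_true, decide_eq_true_eq] at hs
  obtain ⟨hs0, hw⟩ := hs
  have hs0' := hs0
  simp only [sidc0, Bool.and_eq_true, decide_eq_true_eq] at hs0'
  obtain ⟨-, -, -, -, he1, he2, -⟩ := hs0'
  have hD' : (0 : ℝ) < P.D := by exact_mod_cast hD
  have hwd' : (0 : ℝ) < P.wd := by exact_mod_cast hwd
  have hwn' : (0 : ℝ) < P.wn := by exact_mod_cast hwn
  have a0 := hd (pcx P 13 C j) (by simp [gd2])
  have d0 := ha (pcy P P.n0 12 C j) (by simp [ga2])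
  have d1 := ha (pcy P P.n1 12 C j) (by simp [ga2])
  have b0 := cz_lt a0.1 a0.2
  have b1 := cz_le d0.1 d0.2
  have b2 := cz_le d1.1 d1.2
  rw [cz_pcx] at b0
  rw [cz_pcy P P.n0 12 C j x2 (div_mul_cancel₀ _ hD'.ne')] at b1
  rw [cz_pcy P P.n1 12 C j x2 (div_mul_cancel₀ _ hD'.ne')] at b2
  have eR : (((pcx P 13 C j).r : ℤ) : ℝ) = 2560 * fld C (14 * j + 13) := by
    simp only [pcx]; push_cast; rfl
  have eR0 : (((pcy P P.n0 12 C j).r : ℤ) : ℝ) = 6553600 * (P.D : ℝ) * fld C (14 * j + 12) := by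
    simp only [pcy]; push_cast; rfl
  have eR1 : (((pcy P P.n1 12 C j).r : ℤ) : ℝ) = 6553600 * (P.D : ℝ) * fld C (14 * j + 12) := by
    simp only [pcy]; push_cast; rfl
  rw [eR] at b0
  rw [eR0] at b1
  rw [eR1] at b2
  have key := vyD_comb (convex_closedBall (0 : ℂ) (6553600 * (P.D : ℝ) * fld C (14 * j + 12)))
    rfl hD' h0 h1 (by rw [mem_closedBall_zero_iff]; exact b1)
    (by rw [mem_closedBall_zero_iff]; exact b2)
  rw [vyD_eq P r C j x2 he1 he2] at key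
  have hB := le_of_mul_norm (by positivity) key
  have hA := lt_of_mul_norm (D := 2560) (by norm_num)
    (by rw [mem_ball_zero_iff]; exact b0)
  refine goodC_of hs0 ?_
  have hw' : (P.wd : ℝ) * fld C (14 * j + 12) + P.wn * fld C (14 * j + 13) ≤
    P.wd * (fld C (14 * j + 1) - fld C (14 * j + 9)) := by exact_mod_cast hw
  have hW : (P.wn / P.wd : ℝ) * fld C (14 * j + 13) + fld C (14 * j + 12) ≤
      fld C (14 * j + 1) - fld C (14 * j + 9) := by
    rw [div_mul_eq_mul_div, div_add' _ _ _ hwd'.ne', div_le_iff₀ hwd']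
    linarith
  have hWA := mul_lt_mul_of_pos_left hA (div_pos hwn' hwd')
  linarith

/-- the direction `(i u1, - u2)` -/
def rotC (d : ℤ × ℤ × ℤ × ℤ) : ℤ × ℤ × ℤ × ℤ := (-d.2.1, d.1, -d.2.2.1, -d.2.2.2)

theorem vec_rotC (d : ℤ × ℤ × ℤ × ℤ) : vec (rotC d) = (I * (vec d).1, -(vec d).2) := by
  simp only [vec, rotC]
  refine Prod.ext ?_ ?_
  · apply Complex.ext <;> simp
  · apply Complex.ext <;> simp

/-- the statement is invariant under the multiplication by `(i, -1)` -/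
theorem unrotC {dirs : List (ℤ × ℤ × ℤ × ℤ)} (hD : ∀ d ∈ dirs, rotC d ∈ dirs)
    {W r : ℝ} {x1 x2 : ℂ} (h : GoodC dirs W r (-I * x1) (-x2)) : GoodC dirs W r x1 x2 := by
  obtain ⟨d, hd, l, w, b1, b2, a, e1, e2, z, hb1, hb2, ha, he1, he2, hz, h⟩ := h
  refine ⟨rotC d, hD d hd, l, w, b1, b2, a, e1, e2, I * z, hb1, hb2, ha, he1, he2, ?_, ?_⟩
  · rw [norm_mul, norm_I, one_mul]; exact hz
  · rw [vec_rotC]
    have k1 : ((⟨l, w / 2⟩ : ℂ) + b1 * (1 - e1) + b2 * (1 - e2)) * x1 - a * (I * z) -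
        I * (vec d).1 = I * (((⟨l, w / 2⟩ : ℂ) + b1 * (1 - e1) + b2 * (1 - e2)) * (-I * x1) -
          a * z - (vec d).1) := by
      linear_combination (((⟨l, w / 2⟩ : ℂ) + b1 * (1 - e1) + b2 * (1 - e2)) * x1) * I_mul_I
    have k2 : ((⟨l, w⟩ : ℂ) + b1 * (1 - e1 ^ 2) + b2 * (1 - e2 ^ 2)) * x2 -
        r * a * (I * z) ^ 2 - (-(vec d).2) =
        -(((⟨l, w⟩ : ℂ) + b1 * (1 - e1 ^ 2) + b2 * (1 - e2 ^ 2)) * (-x2) - r * a * z ^ 2 -
          (vec d).2) := by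
      linear_combination (-(r * a * z ^ 2) : ℂ) * I_mul_I
    show W * ‖((⟨l, w / 2⟩ : ℂ) + b1 * (1 - e1) + b2 * (1 - e2)) * x1 - a * (I * z) -
        I * (vec d).1‖ + ‖((⟨l, w⟩ : ℂ) + b1 * (1 - e1 ^ 2) + b2 * (1 - e2 ^ 2)) * x2 -
        r * a * (I * z) ^ 2 - (-(vec d).2)‖ + a < l
    rw [k1, k2, norm_mul, norm_I, one_mul, norm_neg]
    exact h

theorem scaleC {dirs : List (ℤ × ℤ × ℤ × ℤ)} {W r : ℝ} (hW : 0 ≤ W) {x1 x2 : ℂ} {t : ℝ}
    (ht : 0 < t) (ht1 : t ≤ 1) (h : GoodC dirs W r (x1 / t) (x2 / t)) :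
    GoodC dirs W r x1 x2 := by
  obtain ⟨d, hd, l, w, b1, b2, a, e1, e2, z, hb1, hb2, ha, he1, he2, hz, h⟩ := h
  have ht' : (t : ℂ) ≠ 0 := by exact_mod_cast ht.ne'
  refine ⟨d, hd, l / t, w / t, b1 / t, b2 / t, a, e1, e2, z, div_nonneg hb1 ht.le,
    div_nonneg hb2 ht.le, ha, he1, he2, hz, ?_⟩
  have e1' : (⟨l / t, w / t / 2⟩ : ℂ) = (⟨l, w / 2⟩ : ℂ) / t := by
    apply Complex.ext
    · rw [Complex.div_ofReal_re]
    · rw [Complex.div_ofReal_im]; ring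
  have e2' : (⟨l / t, w / t⟩ : ℂ) = (⟨l, w⟩ : ℂ) / t := by
    apply Complex.ext
    · rw [Complex.div_ofReal_re]
    · rw [Complex.div_ofReal_im]
  have k1 : ((⟨l / t, w / t / 2⟩ : ℂ) + ((b1 / t : ℝ) : ℂ) * (1 - e1) +
      ((b2 / t : ℝ) : ℂ) * (1 - e2)) * x1 =
      ((⟨l, w / 2⟩ : ℂ) + b1 * (1 - e1) + b2 * (1 - e2)) * (x1 / t) := by
    rw [e1']; push_cast; ring
  have k2 : ((⟨l / t, w / t⟩ : ℂ) + ((b1 / t : ℝ) : ℂ) * (1 - e1 ^ 2) +
      ((b2 / t : ℝ) : ℂ) * (1 - e2 ^ 2)) * x2 =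
      ((⟨l, w⟩ : ℂ) + b1 * (1 - e1 ^ 2) + b2 * (1 - e2 ^ 2)) * (x2 / t) := by
    rw [e2']; push_cast; ring
  rw [k1, k2]
  have hl : 0 ≤ l := le_trans (by positivity) h.le
  refine lt_of_lt_of_le h ?_
  rw [le_div_iff₀ ht]
  nlinarith

theorem zeroC {dirs : List (ℤ × ℤ × ℤ × ℤ)} (hne : dirs ≠ []) {W r : ℝ} :
    GoodC dirs W r 0 0 := by
  obtain ⟨d, hd⟩ := List.exists_mem_of_ne_nil dirs hne
  refine ⟨d, hd, W * ‖(vec d).1‖ + ‖(vec d).2‖ + 1, 0, 0, 0, 0, 1, 1, 0, le_rfl, le_rfl, le_rfl,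
    by simp, by simp, by simp, ?_⟩
  simp

/-- the arcs of the upper half plane -/
theorem halfplane {fa fd : ℕ → ℕ → List Pc} {side : ℕ → ℕ → Bool} {l : List ArcD}
    (hne : l ≠ []) (hl : allArc l (arcOK fa fd side 1) = true) (hch : chainOK 128 0 l = true)
    {z w : ℂ} (h1 : ‖z‖ = 1) (him : 0 ≤ z.im) (h2 : ‖w‖ ≤ 1) (hw : 0 ≤ w.im) :
    Hit fa fd side z.re z.im w.re w.im := by
  have hn1 : z.re ^ 2 + z.im ^ 2 = 1 := by
    have := Complex.sq_norm z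
    rw [h1, Complex.normSq_apply] at this
    nlinarith
  have hn2 : w.re ^ 2 + w.im ^ 2 ≤ 1 := by
    have := Complex.sq_norm w
    rw [Complex.normSq_apply] at this
    have h3 : ‖w‖ ^ 2 ≤ 1 := by nlinarith [norm_nonneg w]
    nlinarith
  refine chain_hit hn1 ?_ hn2 (by push_cast; linarith) l 0 hne hl hch ?_
  · rw [ptB_128, ptA_128]; nlinarith
  · rw [ptB_0, ptA_0]; nlinarith

/-- the cheap part of the check of a cell -/
def cellCK (P : PA) (l1 l2 : List ArcD) : Bool :=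
  and (decide (0 < P.D)) (and (decide (0 < P.wd)) (and (decide (0 < P.wn))
    (and (decide (P.dirs ≠ [])) (and (decide (∀ d ∈ P.dirs, rotC d ∈ P.dirs))
      (and (and (!l1.isEmpty) (!l2.isEmpty)) (and (chainOK 64 0 l1) (chainOK 128 0 l2)))))))

/-- **the covering of a cell** -/
theorem cellC {P : PA} {l1 l2 : List ArcD} (hc : cellCK P l1 l2 = true)
    (h1 : allArc l1 (arcOK (ga1 P) (gd1 P) (sidc1 P) 0) = true)
    (h2 : allArc l2 (arcOK (ga2 P) (gd2 P) (sidc2 P) 1) = true) {r : ℝ}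
    (hk0 : (P.n0 : ℝ) ≤ r * P.D) (hk1 : r * P.D ≤ P.n1) (x1 x2 : ℂ) (hx1 : ‖x1‖ ≤ 1)
    (hx2 : ‖x2‖ ≤ 1) : GoodC P.dirs (P.wn / P.wd) r x1 x2 := by
  simp only [cellCK, Bool.and_eq_true, decide_eq_true_eq, Bool.not_eq_true',
    List.isEmpty_eq_false_iff] at hc
  obtain ⟨hD, hwd, hwn, hne, hrot, ⟨hn1, hn2⟩, hc1, hc2⟩ := hc
  have hW : (0 : ℝ) ≤ (P.wn / P.wd : ℝ) := by
    have h3 : (0 : ℝ) ≤ P.wn := by exact_mod_cast hwn.le
    have h4 : (0 : ℝ) ≤ P.wd := by exact_mod_cast hwd.le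
    exact div_nonneg h3 h4
  have n1 : ∀ z : ℂ, ‖-I * z‖ = ‖z‖ := by intro z; rw [norm_mul, norm_neg, norm_I, one_mul]
  have r1 : ∀ z : ℂ, (-I * z).re = z.im := by intro z; simp
  have r2 : ∀ z : ℂ, (-I * z).im = -z.re := by intro z; simp
  have ur : ∀ x1 x2 : ℂ, GoodC P.dirs (P.wn / P.wd) r (-I * x1) (-x2) →
    GoodC P.dirs (P.wn / P.wd) r x1 x2 := fun x1 x2 h => unrotC hrot h
  refine to_faces (G := fun x1 x2 => GoodC P.dirs (P.wn / P.wd) r x1 x2) (zeroC hne)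
    (fun x1 x2 t ht ht1 h => scaleC hW ht ht1 h) ?_ ?_ x1 x2 hx1 hx2
  · intro x1 x2 hx1 hx2
    have base : ∀ x1 x2 : ℂ, ‖x1‖ = 1 → ‖x2‖ ≤ 1 → 0 ≤ x1.re → 0 ≤ x1.im →
        GoodC P.dirs (P.wn / P.wd) r x1 x2 := fun x1 x2 hx1 hx2 hre him =>
      goodC1 hD hwd hwn hk0 hk1 (quadrant hn1 h1 hc1 hx1 hre him hx2)
    show GoodC P.dirs (P.wn / P.wd) r x1 x2
    rcases le_total 0 x1.re with hr | hr
    · rcases le_total 0 x1.im with hi | hi
      · exact base x1 x2 hx1 hx2 hr hi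
      · refine ur _ _ (ur _ _ (ur _ _ (base _ _ ?_ ?_ ?_ ?_)))
        · simpa only [n1] using hx1
        · simpa only [norm_neg] using hx2
        · simp only [r1, r2]; linarith
        · simp only [r1, r2]; linarith
    · rcases le_total 0 x1.im with hi | hi
      · refine ur _ _ (base _ _ ?_ ?_ ?_ ?_)
        · simpa only [n1] using hx1
        · simpa only [norm_neg] using hx2
        · simp only [r1]; linarith
        · simp only [r2]; linarith
      · refine ur _ _ (ur _ _ (base _ _ ?_ ?_ ?_ ?_))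
        · simpa only [n1] using hx1
        · simpa only [norm_neg] using hx2
        · simp only [r1, r2]; linarith
        · simp only [r1, r2]; linarith
  · intro x1 x2 hx1 hx2
    have base : ∀ x1 x2 : ℂ, ‖x1‖ ≤ 1 → ‖x2‖ = 1 → 0 ≤ x2.im → 0 ≤ x1.im →
        GoodC P.dirs (P.wn / P.wd) r x1 x2 := fun x1 x2 hx1 hx2 h2im h1im =>
      goodC2 hD hwd hwn hk0 hk1 (halfplane hn2 h2 hc2 hx2 h2im hx1 h1im)
    -- the first coordinate in the upper half plane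
    have step : ∀ x1 x2 : ℂ, ‖x1‖ ≤ 1 → ‖x2‖ = 1 → 0 ≤ x2.im →
        GoodC P.dirs (P.wn / P.wd) r x1 x2 := by
      intro x1 x2 hx1 hx2 h2im
      rcases le_total 0 x1.im with hi | hi
      · exact base x1 x2 hx1 hx2 h2im hi
      · refine ur _ _ (ur _ _ (base _ _ ?_ ?_ ?_ ?_))
        · simpa only [n1] using hx1
        · simpa only [norm_neg] using hx2
        · simpa only [neg_neg] using h2im
        · simp only [r1, r2]; linarith
    show GoodC P.dirs (P.wn / P.wd) r x1 x2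
    rcases le_total 0 x2.im with hi | hi
    · exact step x1 x2 hx1 hx2 hi
    · refine ur _ _ (step _ _ ?_ ?_ ?_)
      · simpa only [n1] using hx1
      · simpa only [norm_neg] using hx2
      · rw [Complex.neg_im]; linarith

end Pool.Agent.Zk84.M3
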