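import Pool.Agent.Zk84.M3.Sel
import Pool.Agent.Zk84.M3.W3p
import Pool.Agent.Zk90.M3W1
import Pool.Agent.Zk80.M3W2
import Pool.Agent.Zk76.M3W4
import Pool.Agent.Zk76.M3W5
import Pool.Agent.Zk76.M3W6
import Pool.Agent.Zk86.M3W7

/-!
Bodies in `ℂ × ℂ` with a circle of symmetries.
-/

set_option autoImplicit false

namespace Pool.Agent.Zk84.M3

open Pool.Agent.Zk76.Wt

/-- a convex body in `ℂ × ℂ` with the symmetries `(e^{ikt}, e^{it})` is covered by 16 translates of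
its interior -/
theorem coverWeights : CoverWeights 16 :=
  coverWeights_of Pool.Agent.Zk90.M3.w1 Pool.Agent.Zk80.M3W2.w2 w3 Pool.Agent.Zk76.M3W4.w4
    Pool.Agent.Zk76.M3W5.w5 Pool.Agent.Zk76.M3W6.w6 Pool.Agent.Zk86.M3.w7 selA selB selC selD

end Pool.Agent.Zk84.M3
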