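import Pool.Agent.Zk84.M3.Final
import Pool.Agent.Zk76.Wt.BoundNear

set_option autoImplicit false

/-!
# MP_eba1ef_gt: convex bodies of `ℝ⁴` with many affine symmetries

There is a number `N` such that every convex body of `ℝ⁴` with more than `N` affine symmetries, in
particular every convex body of `ℝ⁴` with infinitely many affine symmetries, is covered by `2⁴`
translates of its interior, as conjectured by Levi, Hadwiger, Gohberg and Markus. Moreover there is
one `ε > 0` such that the same is true for every convex body `K` with `L ⊆ h K ⊆ v + (1 + ε) L`
where `L` is such a body, `h` an affine automorphism and `v` a vector: all bodies in a uniform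
neighbourhood of the class of bodies with many symmetries, most of which have no symmetry at all.
No central symmetry is assumed.

The proof.

1. The affine symmetries of a convex body fix its centroid and preserve its inertia form, so they
   form a compact group. If it is infinite, it contains a one-parameter group; its generator is
   skew-symmetric, so in suitable coordinates `ℝ⁴ = ℂ × ℂ` the body is invariant under all the maps
   `(x₁, x₂) ↦ (e^(ikt) x₁, e^(it) x₂)`, with a real number `0 ≤ k ≤ 1`
   (`Pool.Agent.Zk76.Wt.Weights`).
2. Bodies with more and more symmetries, put in a common position, converge (along a subsequence) to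
   a body with infinitely many symmetries (powers of symmetries near the identity stay at controlled
   distances), and the property of being covered by 16 translates of the interior is stable. So it is
   enough to treat bodies invariant under a circle group
   (`Pool.Agent.Zk76.Wt.Bound`, `Pool.Agent.Zk76.Wt.BoundNear`).
3. `k = 0`: the body consists of discs over a plane body; `4 (3 + 1)` directions
   (`Pool.Agent.Zk76.M3W5`). `k = 1`: the circular bodies (`Pool.Agent.Zk84.HC.Body`).
4. `0 < k < 1`. Scale the coordinates so that `|x₁|` and `|x₂|` have the maximum `1` on `K`. Then `K`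
   contains all `(0, w)` with `|w| ≤ 1`, and all `(z, 0)` with `|z| ≤ 1` (if `1 / k` is not an
   integer) resp. `|z| ≤ cos (k π / 2)`; it is invariant under a rotation of the first coordinate by
   an angle of at most `2 π / 3` (`π / 2` if `k ≤ 1 / 4`), except for `k = 1 / 2`. In this last case
   `K` contains the points `(z, r z²)`, `|z| ≤ 1`, with a number `0 ≤ r ≤ 1`, and `(z, 0)` with
   `|z| ≤ 1 / (1 + r)` (`Pool.Agent.Zk80.M3W2`, `Pool.Agent.Zk84.M3.W3p`, `Pool.Agent.Zk86.M3W7`).
5. A direction `-u` illuminates `x` if `u = l x + w (i k x₁, i x₂) + B (x - y) - a z` with `y, z` in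
   `K`, `B ≥ 0` and `0 ≤ a < l` (`Pool.Agent.Zk76.M3W4`).
6. For thirteen ranges of `k` and (for `k = 1 / 2`) of `r` there are 16 directions, found with a
   computer, such that every point of the bidisc has a certificate of the form 5. The certificates
   (7299, for about 35000 boxes in the products of arcs of the unit circle with the unit disc)
   are checked by the kernel with integer arithmetic (`Pool.Agent.Zk84.M3.Check` and the data files
   `CA1`, ..., `CC7`).
-/

namespace Pool.Agent.Zk84.M3.HandIn

section

variable {E : Type*} [NormedAddCommGroup E] [NormedSpace ℝ E]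

/-- `K` is a convex body: convex and compact, with interior points -/
def Body (K : Set E) : Prop := Convex ℝ K ∧ IsCompact K ∧ (interior K).Nonempty

/-- `L` has more than `N` affine symmetries (for instance infinitely many) -/
def MoreSymmetriesThan (N : ℕ) (L : Set E) : Prop :=
  (N : ℕ∞) < {g : E ≃ᵃ[ℝ] E | g '' L = L}.encard

/-- `L ⊆ h K ⊆ v + (1 + ε) L` for some affine automorphism `h` and some vector `v` -/
def Near (ε : ℝ) (L K : Set E) : Prop :=
  ∃ (h : E ≃ᵃ[ℝ] E) (v : E), L ⊆ h '' K ∧ h '' K ⊆ (fun x => v + (1 + ε) • x) '' L

/-- `K` is covered by at most `m` translates of its interior -/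
def Covered (m : ℕ) (K : Set E) : Prop :=
  ∃ T : Finset E, T.card ≤ m ∧ K ⊆ ⋃ t ∈ T, (fun x => t + x) '' interior K

end

/-- There are a number `N` and an `ε > 0` such that, for every convex body `L` of `ℝ⁴` with more than
`N` affine symmetries, every convex body `K` with `L ⊆ h K ⊆ v + (1 + ε) L` for some affine
automorphism `h` and some vector `v` (for instance `K = L`) is covered by at most `2 ^ 4` translates
of its interior. -/
theorem result : ∃ (N : ℕ) (ε : ℝ), 0 < ε ∧ ∀ L K : Set (EuclideanSpace ℝ (Fin 4)),
    Body L → MoreSymmetriesThan N L → Body K → Near ε L K → Covered (2 ^ 4) K := by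
  obtain ⟨N, ε, hε, h⟩ := Pool.Agent.Zk76.Wt.cov_many_near
    (E := EuclideanSpace ℝ (Fin 4)) (by simp) Pool.Agent.Zk84.M3.coverWeights
  refine ⟨N, ε, hε, fun L K ⟨hL, hLc, hLi⟩ hN ⟨hK, hKc, _⟩ ⟨g, v, h1, h2⟩ => ?_⟩
  exact Pool.Agent.Zk76.Wt.cov_transfer g (h L (g '' K) v hL hLc hLi hN
    (hK.affine_image g.toAffineMap)
    (hKc.image (AffineEquiv.continuous_of_finiteDimensional g)) h1 h2)

end Pool.Agent.Zk84.M3.HandIn
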