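import Pool.Agent.Zk84.M3.Stm
import Pool.Agent.Zk84.M3.CA1
import Pool.Agent.Zk84.M3.CA2
import Pool.Agent.Zk84.M3.CA3
import Pool.Agent.Zk84.M3.CB1
import Pool.Agent.Zk84.M3.CD1
import Pool.Agent.Zk84.M3.CC0
import Pool.Agent.Zk84.M3.CC1
import Pool.Agent.Zk84.M3.CC2
import Pool.Agent.Zk84.M3.CC3
import Pool.Agent.Zk84.M3.CC4
import Pool.Agent.Zk84.M3.CC5
import Pool.Agent.Zk84.M3.CC6
import Pool.Agent.Zk84.M3.CC7

/-!
The four selection statements.
-/

set_option autoImplicit false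

namespace Pool.Agent.Zk84.M3

open Complex
open Pool.Agent.Zk84.HC (vec)

/-- the directions as a finite set -/
noncomputable def dset (dirs : List (ℤ × ℤ × ℤ × ℤ)) : Finset (ℂ × ℂ) := by
  classical
  exact (dirs.map vec).toFinset

theorem dset_card {dirs : List (ℤ × ℤ × ℤ × ℤ)} (h : dirs.length = 16) :
    (dset dirs).card ≤ 16 := by
  classical
  unfold dset
  refine (List.toFinset_card_le _).trans ?_
  rw [List.length_map, h]

theorem mem_dset {dirs : List (ℤ × ℤ × ℤ × ℤ)} {d : ℤ × ℤ × ℤ × ℤ} (h : d ∈ dirs) :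
    vec d ∈ dset dirs := by
  classical
  unfold dset
  rw [List.mem_toFinset]
  exact List.mem_map_of_mem h

theorem selA_cell {P : PA} {l1 l2 : List ArcD} (hc : cellOK P l1 l2 = true)
    (h1 : allArc l1 (arcOK (fa1 P) (fd1 P) (side1 P) 0) = true)
    (h2 : allArc l2 (arcOK (fa2 P) (fd2 P) (side2 P) 0) = true) (hlen : P.dirs.length = 16)
    (h3 : P.c3 = 3) (hw1 : P.wn = 1) (hw2 : P.wd = 1) {k : ℝ}
    (hk0 : (P.n0 : ℝ) ≤ k * P.D) (hk1 : k * P.D ≤ P.n1) :
    ∃ D : Finset (ℂ × ℂ), D.card ≤ 16 ∧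
      ∀ x1 x2 : ℂ, ‖x1‖ ≤ 1 → ‖x2‖ ≤ 1 → ∃ u ∈ D, ∃ l w p q s : ℝ, 0 ≤ p ∧ 3 * q ^ 2 ≤ p ^ 2 ∧
        0 ≤ s ∧ ‖(⟨l + p, k * w + q⟩ : ℂ) * x1 - u.1‖ + ‖(⟨l + s, w⟩ : ℂ) * x2 - u.2‖ < l := by
  refine ⟨dset P.dirs, dset_card hlen, fun x1 x2 hx1 hx2 => ?_⟩
  obtain ⟨d, hd, l, w, p, q, s, hp, hq, hs, -, h⟩ := cellA hc h1 h2 hk0 hk1 x1 x2 hx1 hx2
  refine ⟨vec d, mem_dset hd, l, w, p, q, s, hp, ?_, hs, ?_⟩
  · rw [h3] at hq
    exact_mod_cast hq
  · rw [hw1, hw2] at h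
    simpa using h

theorem selA : SelA := by
  intro k hk0 hk1
  rcases le_total k (1 / 2) with h | h
  · exact selA_cell CA1.t0 CA1.t1 CA1.t2 rfl rfl rfl rfl
      (by simp only [CA1.par]; push_cast; linarith) (by simp only [CA1.par]; push_cast; linarith)
  · rcases le_total k (2 / 3) with h' | h'
    · exact selA_cell CA2.t0 CA2.t1 CA2.t2 rfl rfl rfl rfl
        (by simp only [CA2.par]; push_cast; linarith) (by simp only [CA2.par]; push_cast; linarith)
    · exact selA_cell CA3.t0 CA3.t1 CA3.t2 rfl rfl rfl rfl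
        (by simp only [CA3.par]; push_cast; linarith) (by simp only [CA3.par]; push_cast; linarith)

theorem selD : SelD := by
  intro k hk0 hk1
  refine ⟨dset CD1.par.dirs, dset_card rfl, fun x1 x2 hx1 hx2 => ?_⟩
  obtain ⟨d, hd, l, w, p, q, s, hp, hq, hs, hf, h⟩ := cellA CD1.t0 CD1.t1 CD1.t2 (k := k)
    (by simp only [CD1.par]; push_cast; linarith) (by simp only [CD1.par]; push_cast; linarith)
    x1 x2 hx1 hx2
  refine ⟨vec d, mem_dset hd, l, w, p, q, hp, ?_, ?_⟩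
  · have e : ((CD1.par.c3 : ℤ) : ℝ) = 1 := by simp only [CD1.par]; push_cast; rfl
    rw [e] at hq
    linarith
  · have hs0 : s = 0 := hf (by simp only [CD1.par]; push_cast; rfl)
    have e1 : ((CD1.par.wn : ℤ) : ℝ) = 10825 := by simp only [CD1.par]; push_cast; rfl
    have e2 : ((CD1.par.wd : ℤ) : ℝ) = 10000 := by simp only [CD1.par]; push_cast; rfl
    rw [hs0, e1, e2, add_zero] at h
    exact h

theorem selB : SelB := by
  refine ⟨dset CB1.par.dirs, dset_card rfl, fun x1 x2 hx1 hx2 => ?_⟩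
  obtain ⟨d, hd, l, w, p, q, s, hp, hq, hs, hf, h⟩ := cellA CB1.t0 CB1.t1 CB1.t2 (k := 1 / 3)
    (by simp only [CB1.par]; norm_num) (by simp only [CB1.par]; norm_num)
    x1 x2 hx1 hx2
  refine ⟨vec d, mem_dset hd, l, w, p, q, hp, ?_, ?_⟩
  · have e : ((CB1.par.c3 : ℤ) : ℝ) = 3 := by simp only [CB1.par]; push_cast; rfl
    rw [e] at hq
    exact hq
  · have hs0 : s = 0 := hf (by simp only [CB1.par]; push_cast; rfl)
    have e1 : ((CB1.par.wn : ℤ) : ℝ) = 11548 := by simp only [CB1.par]; push_cast; rfl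
    have e2 : ((CB1.par.wd : ℤ) : ℝ) = 10000 := by simp only [CB1.par]; push_cast; rfl
    rw [hs0, e1, e2, add_zero] at h
    have e3 : (1 : ℝ) / 3 * w + q = w / 3 + q := by ring
    rw [e3] at h
    exact h

theorem selC_cell {P : PA} {l1 l2 : List ArcD} (hc : cellCK P l1 l2 = true)
    (h1 : allArc l1 (arcOK (ga1 P) (gd1 P) (sidc1 P) 0) = true)
    (h2 : allArc l2 (arcOK (ga2 P) (gd2 P) (sidc2 P) 1) = true) (hlen : P.dirs.length = 16)
    {r : ℝ} (hr0 : (P.n0 : ℝ) ≤ r * P.D) (hr1 : r * P.D ≤ P.n1) {W : ℝ}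
    (hW : min (√2) (1 + r) ≤ W) (hPW : ((P.wn : ℝ) / P.wd) = W) :
    ∃ D : Finset (ℂ × ℂ), D.card ≤ 16 ∧
      ∀ x1 x2 : ℂ, ‖x1‖ ≤ 1 → ‖x2‖ ≤ 1 → ∃ u ∈ D, ∃ l w b1 b2 a : ℝ, ∃ e1 e2 z : ℂ,
        0 ≤ b1 ∧ 0 ≤ b2 ∧ 0 ≤ a ∧ ‖e1‖ = 1 ∧ ‖e2‖ = 1 ∧ ‖z‖ ≤ 1 ∧
        min (√2) (1 + r) *
            ‖((⟨l, w / 2⟩ : ℂ) + b1 * (1 - e1) + b2 * (1 - e2)) * x1 - a * z - u.1‖ +
          ‖((⟨l, w⟩ : ℂ) + b1 * (1 - e1 ^ 2) + b2 * (1 - e2 ^ 2)) * x2 - r * a * z ^ 2 - u.2‖ +
          a < l := by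
  refine ⟨dset P.dirs, dset_card hlen, fun x1 x2 hx1 hx2 => ?_⟩
  obtain ⟨d, hd, l, w, b1, b2, a, e1, e2, z, hb1, hb2, ha, he1, he2, hz, h⟩ :=
    cellC hc h1 h2 hr0 hr1 x1 x2 hx1 hx2
  refine ⟨vec d, mem_dset hd, l, w, b1, b2, a, e1, e2, z, hb1, hb2, ha, he1, he2, hz, ?_⟩
  rw [hPW] at h
  have := mul_le_mul_of_nonneg_right hW
    (norm_nonneg (((⟨l, w / 2⟩ : ℂ) + b1 * (1 - e1) + b2 * (1 - e2)) * x1 - a * z - (vec d).1))
  linarith

theorem sqrt_two_le : √2 ≤ 1415 / 1000 := by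
  rw [Real.sqrt_le_left (by norm_num)]
  norm_num

theorem selC : SelC := by
  intro r hr0 hr1
  rcases le_total r (3 / 100) with h | h0
  · exact selC_cell CC0.t0 CC0.t1 CC0.t2 rfl
      (by simp only [CC0.par]; push_cast; linarith) (by simp only [CC0.par]; push_cast; linarith)
      (W := 103 / 100) ((min_le_right _ _).trans (by linarith))
      (by simp only [CC0.par]; push_cast; rfl)
  rcases le_total r (7 / 100) with h | h1
  · exact selC_cell CC1.t0 CC1.t1 CC1.t2 rfl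
      (by simp only [CC1.par]; push_cast; linarith) (by simp only [CC1.par]; push_cast; linarith)
      (W := 107 / 100) ((min_le_right _ _).trans (by linarith))
      (by simp only [CC1.par]; push_cast; rfl)
  rcases le_total r (15 / 100) with h | h2
  · exact selC_cell CC2.t0 CC2.t1 CC2.t2 rfl
      (by simp only [CC2.par]; push_cast; linarith) (by simp only [CC2.par]; push_cast; linarith)
      (W := 115 / 100) ((min_le_right _ _).trans (by linarith))
      (by simp only [CC2.par]; push_cast; rfl)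
  rcases le_total r (25 / 100) with h | h3
  · exact selC_cell CC3.t0 CC3.t1 CC3.t2 rfl
      (by simp only [CC3.par]; push_cast; linarith) (by simp only [CC3.par]; push_cast; linarith)
      (W := 125 / 100) ((min_le_right _ _).trans (by linarith))
      (by simp only [CC3.par]; push_cast; rfl)
  rcases le_total r (35 / 100) with h | h4
  · exact selC_cell CC4.t0 CC4.t1 CC4.t2 rfl
      (by simp only [CC4.par]; push_cast; linarith) (by simp only [CC4.par]; push_cast; linarith)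
      (W := 135 / 100) ((min_le_right _ _).trans (by linarith))
      (by simp only [CC4.par]; push_cast; rfl)
  rcases le_total r (50 / 100) with h | h5
  · exact selC_cell CC5.t0 CC5.t1 CC5.t2 rfl
      (by simp only [CC5.par]; push_cast; linarith) (by simp only [CC5.par]; push_cast; linarith)
      (W := 1415 / 1000) ((min_le_left _ _).trans sqrt_two_le)
      (by simp only [CC5.par]; push_cast; rfl)
  rcases le_total r (60 / 100) with h | h6
  · exact selC_cell CC6.t0 CC6.t1 CC6.t2 rfl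
      (by simp only [CC6.par]; push_cast; linarith) (by simp only [CC6.par]; push_cast; linarith)
      (W := 1415 / 1000) ((min_le_left _ _).trans sqrt_two_le)
      (by simp only [CC6.par]; push_cast; rfl)
  · exact selC_cell CC7.t0 CC7.t1 CC7.t2 rfl
      (by simp only [CC7.par]; push_cast; linarith) (by simp only [CC7.par]; push_cast; linarith)
      (W := 1415 / 1000) ((min_le_left _ _).trans sqrt_two_le)
      (by simp only [CC7.par]; push_cast; rfl)

end Pool.Agent.Zk84.M3
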