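import Pool.Agent.Zk76.Wt.Assemble
import Pool.Agent.Zk84.HC.Body

/-!
The statements of the modules of the proof of `CoverWeights 16`.
-/

set_option autoImplicit false

namespace Pool.Agent.Zk84.M3

open Complex Set Pool.Agent.Zk76.Wt

/-- the selection statement for the weights between `1/4` and `1` -/
def SelA : Prop := ∀ k : ℝ, 1 / 4 ≤ k → k ≤ 1 → ∃ D : Finset (ℂ × ℂ), D.card ≤ 16 ∧
  ∀ x1 x2 : ℂ, ‖x1‖ ≤ 1 → ‖x2‖ ≤ 1 → ∃ u ∈ D, ∃ l w p q s : ℝ, 0 ≤ p ∧ 3 * q ^ 2 ≤ p ^ 2 ∧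
    0 ≤ s ∧ ‖(⟨l + p, k * w + q⟩ : ℂ) * x1 - u.1‖ + ‖(⟨l + s, w⟩ : ℂ) * x2 - u.2‖ < l

/-- the selection statement for the weights between `0` and `1/4` -/
def SelD : Prop := ∀ k : ℝ, 0 ≤ k → k ≤ 1 / 4 → ∃ D : Finset (ℂ × ℂ), D.card ≤ 16 ∧
  ∀ x1 x2 : ℂ, ‖x1‖ ≤ 1 → ‖x2‖ ≤ 1 → ∃ u ∈ D, ∃ l w p q : ℝ, 0 ≤ p ∧ q ^ 2 ≤ p ^ 2 ∧
    (10825 / 10000) * ‖(⟨l + p, k * w + q⟩ : ℂ) * x1 - u.1‖ +
      ‖(⟨l, w⟩ : ℂ) * x2 - u.2‖ < l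

/-- the selection statement for the weight `1/3` -/
def SelB : Prop := ∃ D : Finset (ℂ × ℂ), D.card ≤ 16 ∧
  ∀ x1 x2 : ℂ, ‖x1‖ ≤ 1 → ‖x2‖ ≤ 1 → ∃ u ∈ D, ∃ l w p q : ℝ, 0 ≤ p ∧ 3 * q ^ 2 ≤ p ^ 2 ∧
    (11548 / 10000) * ‖(⟨l + p, w / 3 + q⟩ : ℂ) * x1 - u.1‖ +
      ‖(⟨l, w⟩ : ℂ) * x2 - u.2‖ < l

/-- the selection statement for the weight `1/2` -/
def SelC : Prop := ∀ r : ℝ, 0 ≤ r → r ≤ 1 → ∃ D : Finset (ℂ × ℂ), D.card ≤ 16 ∧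
  ∀ x1 x2 : ℂ, ‖x1‖ ≤ 1 → ‖x2‖ ≤ 1 → ∃ u ∈ D, ∃ l w b1 b2 a : ℝ, ∃ e1 e2 z : ℂ,
    0 ≤ b1 ∧ 0 ≤ b2 ∧ 0 ≤ a ∧ ‖e1‖ = 1 ∧ ‖e2‖ = 1 ∧ ‖z‖ ≤ 1 ∧
    min (√2) (1 + r) *
        ‖((⟨l, w / 2⟩ : ℂ) + b1 * (1 - e1) + b2 * (1 - e2)) * x1 - a * z - u.1‖ +
      ‖((⟨l, w⟩ : ℂ) + b1 * (1 - e1 ^ 2) + b2 * (1 - e2 ^ 2)) * x2 - r * a * z ^ 2 - u.2‖ +
      a < l

/-- invariance under the circle group with the weights `k`, `1` -/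
def Inv (k : ℝ) (K : Set (ℂ × ℂ)) : Prop :=
  ∀ (t : ℝ) (x : ℂ × ℂ), x ∈ K →
    (Complex.exp ((k : ℂ) * (t : ℂ) * Complex.I) * x.1,
      Complex.exp ((t : ℂ) * Complex.I) * x.2) ∈ K

/-- the normalized bodies -/
structure Body (k : ℝ) (K : Set (ℂ × ℂ)) : Prop where
  conv : Convex ℝ K
  comp : IsCompact K
  zero : (0 : ℂ × ℂ) ∈ interior K
  inv : Inv k K
  le1 : ∀ x ∈ K, ‖x.1‖ ≤ 1
  le2 : ∀ x ∈ K, ‖x.2‖ ≤ 1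
  hit1 : ∃ x ∈ K, ‖x.1‖ = 1
  hit2 : ∃ x ∈ K, ‖x.2‖ = 1

/-- W1: normalization -/
def W1 : Prop := ∀ (k : ℝ), 0 < k → k < 1 → ∀ m : ℕ, (∀ K, Body k K → Cov m K) →
  ∀ K : Set (ℂ × ℂ), Convex ℝ K → IsCompact K → (interior K).Nonempty → Inv k K → Cov m K

/-- W2: points of `K` on the two axes -/
def W2 : Prop := ∀ (k : ℝ), 0 < k → k < 1 → ∀ K, Body k K →
  (∀ w : ℂ, ‖w‖ ≤ 1 → ((0 : ℂ), w) ∈ K) ∧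
  (∀ z : ℂ, ‖z‖ ≤ Real.cos (k * Real.pi / 2) → (z, (0 : ℂ)) ∈ K) ∧
  ((∀ n : ℕ, k * n ≠ 1) → ∀ x ∈ K, (x.1, (0 : ℂ)) ∈ K)

/-- W3: rotations of the first coordinate -/
def W3 : Prop := ∀ (k : ℝ), 0 < k → k < 1 → k ≠ 1 / 2 → ∀ K, Body k K → ∀ p q : ℝ, 0 ≤ p →
  (k ≤ 1 / 4 ∧ q ^ 2 ≤ p ^ 2 ∨ 1 / 4 ≤ k ∧ 3 * q ^ 2 ≤ p ^ 2) →
  ∃ (e1 e2 : ℂ) (b1 b2 : ℝ), 0 ≤ b1 ∧ 0 ≤ b2 ∧ (∀ x ∈ K, (e1 * x.1, x.2) ∈ K) ∧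
    (∀ x ∈ K, (e2 * x.1, x.2) ∈ K) ∧ (⟨p, q⟩ : ℂ) = b1 * (1 - e1) + b2 * (1 - e2)

/-- W4: illumination -/
def W4 : Prop := ∀ (k : ℝ) (K : Set (ℂ × ℂ)), Body k K → ∀ (x u y z : ℂ × ℂ), x ∈ K → y ∈ K →
  z ∈ K → ∀ l w B a : ℝ, 0 ≤ B → 0 ≤ a → a < l →
  u = l • x + w • ((k : ℂ) * I * x.1, I * x.2) + B • (x - y) - a • z →
  ∃ ε : ℝ, 0 < ε ∧ x - ε • u ∈ interior K

/-- W5: the weight zero -/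
def W5 : Prop := ∀ K : Set (ℂ × ℂ), Convex ℝ K → IsCompact K → (interior K).Nonempty →
  (∀ (t : ℝ) (x : ℂ × ℂ), x ∈ K → (x.1, Complex.exp ((t : ℂ) * Complex.I) * x.2) ∈ K) → Cov 16 K

/-- W6: the weights between `0` and `1`, apart from `1/2` -/
def W6 : Prop := W2 → W3 → W4 → SelA → SelB → SelD → ∀ k : ℝ, 0 < k → k < 1 → k ≠ 1 / 2 →
  ∀ K, Body k K → Cov 16 K

/-- W7: the weight `1/2` -/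
def W7 : Prop := W2 → W4 → SelC → ∀ K, Body (1 / 2) K → Cov 16 K

theorem coverWeights_of (w1 : W1) (w2 : W2) (w3 : W3) (w4 : W4) (w5 : W5) (w6 : W6) (w7 : W7)
    (hA : SelA) (hB : SelB) (hC : SelC) (hD : SelD) : CoverWeights 16 := by
  intro k hk0 hk1 K hK hc hi hinv
  rcases hk0.eq_or_lt with h0 | h0
  · refine w5 K hK hc hi fun t x hx => ?_
    have := hinv t x hx
    rw [← h0] at this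
    simpa using this
  rcases hk1.eq_or_lt with h1 | h1
  · refine Pool.Agent.Zk84.HC.cover_circular hK hc hi fun z hz x hx => ?_
    have := hinv z.arg x hx
    rw [h1] at this
    have e : Complex.exp ((z.arg : ℂ) * Complex.I) = z := by
      have := Complex.norm_mul_exp_arg_mul_I z
      rw [hz] at this
      simpa using this
    have e2 : (((1 : ℝ) : ℂ)) * (z.arg : ℂ) = (z.arg : ℂ) := by push_cast; ring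
    rw [e2, e] at this
    exact this
  · by_cases h2 : k = 1 / 2
    · subst h2
      exact w1 _ h0 h1 16 (fun K hK => w7 w2 w4 hC K hK) K hK hc hi hinv
    · exact w1 _ h0 h1 16 (fun K hK => w6 w2 w3 w4 hA hB hD k h0 h1 h2 K hK) K hK hc hi hinv

end Pool.Agent.Zk84.M3
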